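import Pool.Agent.Helper52.KripkeHA.Truth

namespace Pool.Agent.Helper52.KripkeHA

open Filter Nat.Partrec

theorem Tm.val_subst {D : Type} (A : Arith D) (σ : ℕ → Tm) (t : Tm) (v : ℕ → D) :
    (t.subst σ).val A v = t.val A (fun i => (σ i).val A v) := by
  induction t with
  | var n => rfl
  | zero => rfl
  | succ t ih => simp only [Tm.subst, Tm.val, ih]
  | add s t ihs iht => simp only [Tm.subst, Tm.val, ihs, iht]
  | mul s t ihs iht => simp only [Tm.subst, Tm.val, ihs, iht]

theorem val_liftSubst {D : Type} (A : Arith D) (σ : ℕ → Tm) (d : D) (v : ℕ → D) :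
    (fun i => (liftSubst σ i).val A (cons d v)) = cons d (fun i => (σ i).val A v) := by
  funext i
  cases i with
  | zero => rfl
  | succ n =>
    change ((σ n).subst (fun m => .var (m + 1))).val A (cons d v) = (σ n).val A v
    rw [Tm.val_subst]
    rfl

theorem Fm.sat_subst {D : Type} (A : Arith D) (φ : Fm) : ∀ (σ : ℕ → Tm) (v : ℕ → D),
    (φ.subst σ).Sat A v ↔ φ.Sat A (fun i => (σ i).val A v) := by
  induction φ with
  | bot => intro σ v; rfl
  | eq s t => intro σ v; simp only [Fm.subst, Fm.Sat, Tm.val_subst]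
  | and φ ψ ih1 ih2 => intro σ v; simp only [Fm.subst, Fm.Sat, ih1, ih2]
  | or φ ψ ih1 ih2 => intro σ v; simp only [Fm.subst, Fm.Sat, ih1, ih2]
  | imp φ ψ ih1 ih2 => intro σ v; simp only [Fm.subst, Fm.Sat, ih1, ih2]
  | all φ ih => intro σ v; simp only [Fm.subst, Fm.Sat, ih, val_liftSubst]
  | ex φ ih => intro σ v; simp only [Fm.subst, Fm.Sat, ih, val_liftSubst]

theorem rlz_subst (φ : Fm) : ∀ (e : ℕ) (σ : ℕ → Tm) (v : ℕ → ℕ),
    rlz (φ.subst σ) e v ↔ rlz φ e (fun i => (σ i).val natA v) := by
  induction φ with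
  | bot => intro e σ v; rfl
  | eq s t => intro e σ v; simp only [Fm.subst, rlz, Tm.val_subst]
  | and φ ψ ih1 ih2 => intro e σ v; simp only [Fm.subst, rlz, ih1, ih2]
  | or φ ψ ih1 ih2 => intro e σ v; simp only [Fm.subst, rlz, ih1, ih2]
  | imp φ ψ ih1 ih2 => intro e σ v; simp only [Fm.subst, rlz, ih1, ih2]
  | all φ ih => intro e σ v; simp only [Fm.subst, rlz, ih, val_liftSubst]
  | ex φ ih => intro e σ v; simp only [Fm.subst, rlz, ih, val_liftSubst]

theorem val_cons_zero {D : Type} (A : Arith D) (v : ℕ → D) :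
    (fun i => (cons Tm.zero Tm.var i).val A v) = cons A.zero v := by
  funext i; cases i <;> rfl

theorem val_cons_succ {D : Type} (A : Arith D) (d : D) (v : ℕ → D) :
    (fun i => (cons (Tm.succ (Tm.var 0)) (fun n => Tm.var (n + 1)) i).val A (cons d v)) =
      cons (A.succ d) v := by
  funext i; cases i <;> rfl

/-- the recursor -/
def recP (t n : ℕ) : Part ℕ :=
  n.rec (Part.some t.unpair.1) fun y IH => IH.bind fun i =>
    (app t.unpair.2 y).bind fun g => app g i

theorem app_partrec₂ : Partrec₂ app := by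
  have := Partrec.nat_iff.2 app_partrec
  exact Partrec₂.unpaired.1 (this.of_eq fun n => rfl)

theorem recP_partrec : Partrec₂ recP := by
  have h := Partrec.nat_rec (f := fun a : ℕ × ℕ => a.2)
    (g := fun a : ℕ × ℕ => Part.some a.1.unpair.1)
    (h := fun (a : ℕ × ℕ) (b : ℕ × ℕ) => (app a.1.unpair.2 b.1).bind fun g => app g b.2)
    Computable.snd
    ((Computable.fst.comp (Computable.unpair.comp Computable.fst)).partrec)
    (by
      refine Partrec.bind ?_ ?_
      · exact app_partrec₂.comp
          (Computable.snd.comp (Computable.unpair.comp (Computable.fst.comp Computable.fst)))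
          (Computable.fst.comp Computable.snd)
      · exact app_partrec₂.comp Computable.snd
          (Computable.snd.comp (Computable.snd.comp Computable.fst)))
  exact h

theorem exists_ind_realizer (φ : Fm) : ∃ e : ℕ, ∀ v, rlz (inductionAxiom φ) e v := by
  obtain ⟨c, hc⟩ := Code.exists_code.1 (Partrec₂.unpaired'.2 recP_partrec)
  have h2 : Nat.Partrec (fun t => Part.some (Encodable.encode (c.curry t))) := by
    have : Primrec (fun t => Encodable.encode (c.curry t)) :=
      Primrec.encode.comp (Code.primrec₂_curry.comp (Primrec.const c) Primrec.id)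
    exact Nat.Partrec.of_primrec (Primrec.nat_iff.1 this)
  obtain ⟨c2, hc2⟩ := Code.exists_code.1 h2
  refine ⟨Encodable.encode c2, fun v => ?_⟩
  simp only [inductionAxiom, rlz]
  rintro t ⟨h0, hs⟩
  refine ⟨Encodable.encode (c.curry t), ?_, ?_⟩
  · simp [app, hc2]
  · intro n
    have happ : app (Encodable.encode (c.curry t)) n = recP t n := by
      simp [app, Code.eval_curry, hc]
    rw [happ]
    induction n with
    | zero =>
      refine ⟨t.unpair.1, ?_, ?_⟩
      · simp [recP]
      · rw [rlz_subst, val_cons_zero] at h0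
        exact h0
    | succ n ih =>
      have happ' : app (Encodable.encode (c.curry t)) n = recP t n := by
        simp [app, Code.eval_curry, hc]
      obtain ⟨b, hb, hr⟩ := ih happ'
      obtain ⟨g, hg, hgr⟩ := hs n
      obtain ⟨d, hd, hdr⟩ := hgr b hr
      refine ⟨d, ?_, ?_⟩
      · change d ∈ (recP t n).bind fun i => (app t.unpair.2 n).bind fun g => app g i
        exact Part.mem_bind hb (Part.mem_bind hg hd)
      · rw [rlz_subst, val_cons_succ] at hdr
        exact hdr

theorem exists_realizer (φ : Fm) (h : IsAxiom φ) : ∃ e : ℕ, ∀ v, rlz φ e v := by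
  cases h with
  | succ_ne_zero =>
    refine ⟨0, fun v => ?_⟩
    intro a ha
    exact absurd ha (Nat.succ_ne_zero _)
  | succ_inj =>
    refine ⟨0, fun v => ?_⟩
    intro a ha
    have hz : app 0 a = Part.some 0 := by
      simp [app, Denumerable.ofNat_of_decode, Code.ofNatCode_eq, Code.ofNatCode, Code.eval]
      rfl
    refine ⟨0, by rw [hz]; exact Part.mem_some 0, Nat.succ_injective ha⟩
  | add_zero => exact ⟨0, fun v => rfl⟩
  | add_succ => exact ⟨0, fun v => rfl⟩
  | mul_zero => exact ⟨0, fun v => rfl⟩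
  | mul_succ => exact ⟨0, fun v => rfl⟩
  | induction φ => exact exists_ind_realizer φ

theorem theModel_forcesHA : theModel.ForcesHA := by
  intro φ hφ a v
  obtain ⟨e, he⟩ := exists_realizer φ hφ
  choose w hw using fun i => el_surj a (v i)
  have hv' : v = fun i => el a (w i) := funext fun i => (hw i).symm
  rw [hv']
  exact (truth φ a w).2 ⟨fun _ => e, PE.const e, Eventually.of_forall fun x => he _⟩

end Pool.Agent.Helper52.KripkeHA
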