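import Pool.Agent.Helper52.KripkeHA.Defs

namespace Pool.Agent.Helper52.KripkeHA

open Filter Nat.Partrec

/-- first component of the pairing -/
def pr (z : ℕ) : ℕ := z.unpair.1

/-- functions which are partial recursive and defined on a set of the filter -/
def PE (F : Filter ℕ) : Set (ℕ → ℕ) :=
  {f | ∃ g : ℕ →. ℕ, Nat.Partrec g ∧ ∀ᶠ x in F, f x ∈ g x}

structure RPrime (F : Filter ℕ) : Prop where
  ne : F.NeBot
  dec : ∀ f ∈ PE F, (∀ᶠ x in F, f x = 0) ∨ (∀ᶠ x in F, f x ≠ 0)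

theorem PE.comp {F : Filter ℕ} {f b : ℕ → ℕ} {h : ℕ →. ℕ} (hf : f ∈ PE F)
    (hh : Nat.Partrec h) (hb : ∀ᶠ x in F, b x ∈ h (f x)) : b ∈ PE F := by
  obtain ⟨g, hg, hfg⟩ := hf
  refine ⟨fun n => g n >>= h, hh.comp hg, ?_⟩
  filter_upwards [hfg, hb] with x h1 h2
  exact Part.mem_bind h1 h2

theorem PE.congr {F : Filter ℕ} {f b : ℕ → ℕ} (hf : f ∈ PE F) (hb : b =ᶠ[F] f) : b ∈ PE F := by
  obtain ⟨g, hg, hfg⟩ := hf
  refine ⟨g, hg, ?_⟩
  filter_upwards [hfg, hb] with x h1 h2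
  rw [h2]; exact h1

theorem PE.prim {F : Filter ℕ} {f h : ℕ → ℕ} (hf : f ∈ PE F)
    (hh : Nat.Primrec h) : (fun x => h (f x)) ∈ PE F :=
  PE.comp hf (Nat.Partrec.of_primrec hh) (Eventually.of_forall fun x => by simp)

theorem PE.pair {F : Filter ℕ} {f g : ℕ → ℕ} (hf : f ∈ PE F) (hg : g ∈ PE F) :
    (fun x => Nat.pair (f x) (g x)) ∈ PE F := by
  obtain ⟨f', hf', hff⟩ := hf
  obtain ⟨g', hg', hgg⟩ := hg
  refine ⟨_, hf'.pair hg', ?_⟩
  filter_upwards [hff, hgg] with x h1 h2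
  simp only [Seq.seq, Part.map_eq_map, Part.bind_eq_bind, Part.mem_bind_iff, Part.mem_map_iff]
  refine ⟨Nat.pair (f x), ⟨f x, h1, rfl⟩, g x, h2, rfl⟩

theorem PE.id {F : Filter ℕ} : (fun x => x) ∈ PE F :=
  ⟨_, Nat.Partrec.of_primrec Nat.Primrec.id, Eventually.of_forall fun x => by simp⟩

theorem PE.const {F : Filter ℕ} (n : ℕ) : (fun _ => n) ∈ PE F :=
  ⟨_, Nat.Partrec.of_primrec (Nat.Primrec.const n), Eventually.of_forall fun x => by simp⟩

theorem PE.prim₂ {F : Filter ℕ} {f g : ℕ → ℕ} {h : ℕ → ℕ → ℕ} (hf : f ∈ PE F) (hg : g ∈ PE F)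
    (hh : Primrec₂ h) : (fun x => h (f x) (g x)) ∈ PE F := by
  have := PE.prim (PE.pair hf hg) (Primrec₂.unpaired'.2 hh)
  simpa using this

theorem PE.prim₁ {F : Filter ℕ} {f : ℕ → ℕ} {h : ℕ → ℕ} (hf : f ∈ PE F)
    (hh : Primrec h) : (fun x => h (f x)) ∈ PE F :=
  PE.prim hf (Primrec.nat_iff.1 hh)

theorem PE.tendsto {F G : Filter ℕ} {f q : ℕ → ℕ} (hf : f ∈ PE F) (hq : Nat.Primrec q)
    (ht : Tendsto q G F) : (fun x => f (q x)) ∈ PE G := by
  obtain ⟨g, hg, hfg⟩ := hf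
  have hq' : q ∈ PE G := PE.prim (PE.id) hq
  exact PE.comp hq' hg (ht.eventually hfg)

theorem primrec_pr : Nat.Primrec pr := Nat.Primrec.left

theorem primrec_iter_pr (k : ℕ) : Nat.Primrec (pr^[k]) := by
  induction k with
  | zero => exact Nat.Primrec.id
  | succ k ih =>
    have := Nat.Primrec.comp ih primrec_pr
    exact this.of_eq fun n => by rw [Function.iterate_succ_apply]

/-- equality of two elements is decided -/
theorem RPrime.dec_eq {F : Filter ℕ} (hF : RPrime F) {f g : ℕ → ℕ} (hf : f ∈ PE F)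
    (hg : g ∈ PE F) : (∀ᶠ x in F, f x = g x) ∨ (∀ᶠ x in F, f x ≠ g x) := by
  have hh : Primrec₂ (fun a b : ℕ => if a = b then 0 else 1) :=
    Primrec.ite (Primrec.eq.comp Primrec.fst Primrec.snd) (Primrec.const 0) (Primrec.const 1)
  rcases hF.dec _ (PE.prim₂ hf hg hh) with h | h
  · left
    filter_upwards [h] with x hx
    by_contra hne
    simp [hne] at hx
  · right
    filter_upwards [h] with x hx hne
    simp [hne] at hx

/-- Bad filters: some partial recursive function finds `S`-witnesses almost everywhere. -/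
def Bad (S : ℕ → ℕ → Prop) (G : Filter ℕ) : Prop :=
  ∃ g : ℕ →. ℕ, Nat.Partrec g ∧ ∀ᶠ z in G, ∃ b ∈ g z, S z b

theorem Bad.mono {S : ℕ → ℕ → Prop} {G H : Filter ℕ} (h : Bad S G) (hle : H ≤ G) : Bad S H := by
  obtain ⟨g, hg, hb⟩ := h
  exact ⟨g, hg, hle hb⟩

theorem exists_extension {S : ℕ → ℕ → Prop} {F : Filter ℕ} (hF : ¬ Bad S F) :
    ∃ G ≤ F, RPrime G ∧ ¬ Bad S G := by
  -- Zorn
  obtain ⟨G, hGF, hG, hmax⟩ : ∃ G ≤ F, ¬ Bad S G ∧ ∀ H ≤ G, ¬ Bad S H → G ≤ H := by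
    have key := zorn_le_nonempty₀ (α := (Filter ℕ)ᵒᵈ) {H | ¬ Bad S (OrderDual.ofDual H)} ?_
      (OrderDual.toDual F) hF
    · obtain ⟨m, hm1, hm2⟩ := key
      refine ⟨OrderDual.ofDual m, hm1, hm2.prop, fun H hH hbad => ?_⟩
      exact hm2.le_of_ge (y := OrderDual.toDual H) hbad hH
    · intro c hc hchain y hy
      refine ⟨OrderDual.toDual (sInf (OrderDual.toDual ⁻¹' c)), ?_, ?_⟩
      · rintro ⟨g, hg, hb⟩
        have hdir : DirectedOn (· ≥ ·) (OrderDual.toDual ⁻¹' c : Set (Filter ℕ)) := by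
          intro a ha b hb
          rcases eq_or_ne a b with rfl | hne
          · exact ⟨a, ha, le_rfl, le_rfl⟩
          · rcases hchain ha hb (fun h => hne h) with h | h
            · exact ⟨b, hb, h, le_rfl⟩
            · exact ⟨a, ha, le_rfl, h⟩
        have hne : (OrderDual.toDual ⁻¹' c : Set (Filter ℕ)).Nonempty := ⟨OrderDual.ofDual y, hy⟩
        have hb' : {z | ∃ b ∈ g z, S z b} ∈ sInf (OrderDual.toDual ⁻¹' c : Set (Filter ℕ)) := hb
        rw [sInf_eq_iInf, mem_biInf_of_directed (f := fun x => x) hdir hne] at hb'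
        obtain ⟨H, hH, hb''⟩ := hb'
        exact hc hH ⟨g, hg, hb''⟩
      · intro z hz
        exact sInf_le (α := Filter ℕ) hz
  refine ⟨G, hGF, ⟨?_, ?_⟩, hG⟩
  · rw [Filter.neBot_iff]
    rintro rfl
    exact hG ⟨_, Nat.Partrec.none, by simp⟩
  · intro f hf
    by_contra hcon
    rw [not_or] at hcon
    obtain ⟨h0, h1⟩ := hcon
    have hb0 : Bad S (G ⊓ 𝓟 {x | f x = 0}) := by
      by_contra hnb
      have := hmax _ inf_le_left hnb
      exact h0 (this (mem_inf_of_right (mem_principal_self _)))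
    have hb1 : Bad S (G ⊓ 𝓟 {x | f x ≠ 0}) := by
      by_contra hnb
      have := hmax _ inf_le_left hnb
      exact h1 (this (mem_inf_of_right (mem_principal_self _)))
    obtain ⟨g0, hg0, hb0⟩ := hb0
    obtain ⟨g1, hg1, hb1⟩ := hb1
    rw [eventually_inf_principal] at hb0 hb1
    obtain ⟨f', hf', hff'⟩ := hf
    apply hG
    -- glue
    have hsel : Partrec (fun z : ℕ => (f' z).bind fun n => cond (decide (n = 0)) (g0 z) (g1 z)) := by
      refine Partrec.bind (Partrec.nat_iff.2 hf') ?_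
      refine Partrec.cond (c := fun a : ℕ × ℕ => decide (a.2 = 0)) ?_ ?_ ?_
      · exact (PrimrecPred.decide (Primrec.eq.comp Primrec.snd (Primrec.const 0))).to_comp
      · exact (Partrec.nat_iff.2 hg0).comp Computable.fst
      · exact (Partrec.nat_iff.2 hg1).comp Computable.fst
    refine ⟨_, Partrec.nat_iff.1 hsel, ?_⟩
    filter_upwards [hff', hb0, hb1] with x h1 h2 h3
    by_cases hx : f x = 0
    · obtain ⟨b, hb, hS⟩ := h2 hx
      refine ⟨b, Part.mem_bind_iff.2 ⟨f x, h1, by simpa [hx] using hb⟩, hS⟩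
    · obtain ⟨b, hb, hS⟩ := h3 hx
      refine ⟨b, Part.mem_bind_iff.2 ⟨f x, h1, by simpa [hx] using hb⟩, hS⟩

end Pool.Agent.Helper52.KripkeHA
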