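import Mathlib

namespace Pool.Agent.Helper52.KripkeHA

/-- Terms of the first-order language of arithmetic `0, S, +, *` (de Bruijn variables). -/
inductive Tm : Type
  | var : ℕ → Tm
  | zero : Tm
  | succ : Tm → Tm
  | add : Tm → Tm → Tm
  | mul : Tm → Tm → Tm

/-- First-order formulas of arithmetic. Inside the body of `all` and `ex` the variable `0` is the
bound variable and the variable `n + 1` is the variable `n` of the context. Negation of `φ` is
`imp φ bot`. -/
inductive Fm : Type
  | bot : Fm
  | eq : Tm → Tm → Fm
  | and : Fm → Fm → Fm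
  | or : Fm → Fm → Fm
  | imp : Fm → Fm → Fm
  | all : Fm → Fm
  | ex : Fm → Fm

/-- `cons d v` is the sequence `d, v 0, v 1, ...`. -/
def cons {D : Type} (d : D) (v : ℕ → D) : ℕ → D
  | 0 => d
  | n + 1 => v n

/-- Simultaneous substitution in terms. -/
def Tm.subst (σ : ℕ → Tm) : Tm → Tm
  | .var n => σ n
  | .zero => .zero
  | .succ t => .succ (t.subst σ)
  | .add s t => .add (s.subst σ) (t.subst σ)
  | .mul s t => .mul (s.subst σ) (t.subst σ)

/-- The substitution `σ` pushed under a quantifier. -/
def liftSubst (σ : ℕ → Tm) : ℕ → Tm :=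
  cons (.var 0) (fun n => (σ n).subst (fun m => .var (m + 1)))

/-- Simultaneous capture-avoiding substitution in formulas. -/
def Fm.subst : (ℕ → Tm) → Fm → Fm
  | _, .bot => .bot
  | σ, .eq s t => .eq (s.subst σ) (t.subst σ)
  | σ, .and φ ψ => .and (φ.subst σ) (ψ.subst σ)
  | σ, .or φ ψ => .or (φ.subst σ) (ψ.subst σ)
  | σ, .imp φ ψ => .imp (φ.subst σ) (ψ.subst σ)
  | σ, .all φ => .all (φ.subst (liftSubst σ))
  | σ, .ex φ => .ex (φ.subst (liftSubst σ))

/-- Structures for the language of arithmetic with domain `D`; equality is identity. -/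
structure Arith (D : Type) where
  zero : D
  succ : D → D
  add : D → D → D
  mul : D → D → D

/-- Value of a term under an assignment of elements to the variables. -/
def Tm.val {D : Type} (A : Arith D) (v : ℕ → D) : Tm → D
  | .var n => v n
  | .zero => A.zero
  | .succ t => A.succ (t.val A v)
  | .add s t => A.add (s.val A v) (t.val A v)
  | .mul s t => A.mul (s.val A v) (t.val A v)

/-- Classical (Tarskian) satisfaction. -/
def Fm.Sat {D : Type} (A : Arith D) : Fm → (ℕ → D) → Prop
  | .bot, _ => False
  | .eq s t, v => s.val A v = t.val A v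
  | .and φ ψ, v => φ.Sat A v ∧ ψ.Sat A v
  | .or φ ψ, v => φ.Sat A v ∨ ψ.Sat A v
  | .imp φ ψ, v => φ.Sat A v → ψ.Sat A v
  | .all φ, v => ∀ d, φ.Sat A (cons d v)
  | .ex φ, v => ∃ d, φ.Sat A (cons d v)

/-- The induction axiom `φ(0) ∧ ∀ x (φ(x) → φ(S x)) → ∀ x φ(x)` for `φ` in the variable `0`;
the other free variables of `φ` are parameters. -/
def inductionAxiom (φ : Fm) : Fm :=
  .imp (.and (φ.subst (cons .zero .var))
    (.all (.imp φ (φ.subst (cons (.succ (.var 0)) (fun n => .var (n + 1))))))) (.all φ)

/-- The axioms shared by Heyting arithmetic (read intuitionistically) and Peano arithmetic (read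
classically): the successor, addition and multiplication axioms and induction for every formula.
The free variables of an axiom are understood as universally quantified. -/
inductive IsAxiom : Fm → Prop
  | succ_ne_zero : IsAxiom (.imp (.eq (.succ (.var 0)) .zero) .bot)
  | succ_inj : IsAxiom (.imp (.eq (.succ (.var 0)) (.succ (.var 1))) (.eq (.var 0) (.var 1)))
  | add_zero : IsAxiom (.eq (.add (.var 0) .zero) (.var 0))
  | add_succ : IsAxiom (.eq (.add (.var 0) (.succ (.var 1))) (.succ (.add (.var 0) (.var 1))))
  | mul_zero : IsAxiom (.eq (.mul (.var 0) .zero) .zero)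
  | mul_succ :
      IsAxiom (.eq (.mul (.var 0) (.succ (.var 1))) (.add (.mul (.var 0) (.var 1)) (.var 0)))
  | induction (φ : Fm) : IsAxiom (inductionAxiom φ)

/-- Kripke models for the language of arithmetic: a nonempty partially ordered set of nodes, each
node `k` carrying a classical structure `str k` whose domain `dom k` is a subset of a common set
`U`. Along the order the domains increase (literal inclusion), and every atomic formula which is
true at `k` for some parameters of `dom k` stays true at every later node. -/
structure KripkeModel where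
  Node : Type
  [order : PartialOrder Node]
  nonempty : Nonempty Node
  U : Type
  dom : Node → Set U
  str : (k : Node) → Arith (dom k)
  dom_mono : ∀ {k k' : Node}, k ≤ k' → dom k ⊆ dom k'
  atomic_mono : ∀ {k k' : Node} (h : k ≤ k') (s t : Tm) (v : ℕ → dom k),
    s.val (str k) v = t.val (str k) v →
    s.val (str k') (fun i => Set.inclusion (dom_mono h) (v i)) =
      t.val (str k') (fun i => Set.inclusion (dom_mono h) (v i))

namespace KripkeModel

instance (K : KripkeModel) : PartialOrder K.Node := K.order

/-- The assignment `v` at the node `k`, regarded as an assignment at a later node `k'`. -/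
def up (K : KripkeModel) {k k' : K.Node} (h : k ≤ k') (v : ℕ → K.dom k) : ℕ → K.dom k' :=
  fun i => Set.inclusion (K.dom_mono h) (v i)

/-- The Kripke forcing relation: `K.Forces φ k v` says that the node `k` forces `φ` under the
assignment `v` of elements of `dom k` to the variables. -/
def Forces (K : KripkeModel) : Fm → (k : K.Node) → (ℕ → K.dom k) → Prop
  | .bot, _, _ => False
  | .eq s t, k, v => s.val (K.str k) v = t.val (K.str k) v
  | .and φ ψ, k, v => K.Forces φ k v ∧ K.Forces ψ k v
  | .or φ ψ, k, v => K.Forces φ k v ∨ K.Forces ψ k v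
  | .imp φ ψ, k, v => ∀ (k' : K.Node) (h : k ≤ k'), K.Forces φ k' (K.up h v) →
      K.Forces ψ k' (K.up h v)
  | .all φ, k, v => ∀ (k' : K.Node) (h : k ≤ k') (a : K.dom k'),
      K.Forces φ k' (cons a (K.up h v))
  | .ex φ, k, v => ∃ a : K.dom k, K.Forces φ k (cons a v)

/-- `K` is a Kripke model of Heyting arithmetic: every node forces every axiom, under every
assignment (equivalently, every node forces the universal closures of the axioms). -/
def ForcesHA (K : KripkeModel) : Prop :=
  ∀ φ : Fm, IsAxiom φ → ∀ (k : K.Node) (v : ℕ → K.dom k), K.Forces φ k v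

/-- The classical structure at the node `k` is a model of Peano arithmetic. -/
def SatPA (K : KripkeModel) (k : K.Node) : Prop :=
  ∀ φ : Fm, IsAxiom φ → ∀ v : ℕ → K.dom k, φ.Sat (K.str k) v

end KripkeModel

end Pool.Agent.Helper52.KripkeHA
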