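import Pool.Agent.Helper52.KripkeHA.Core

namespace Pool.Agent.Helper52.KripkeHA

open Filter Nat.Partrec

/-- Nodes: finite chains `s 0, ..., s n` of filters. -/
structure Nd where
  n : ℕ
  s : ℕ → Filter ℕ
  above : ∀ i, n < i → s i = ⊥
  prime : ∀ i, i ≤ n → RPrime (s i)
  tend : ∀ i, i < n → Tendsto pr (s (i + 1)) (s i)
  root : s 0 ≤ cofinite

namespace Nd

/-- the last filter of the chain -/
def F (a : Nd) : Filter ℕ := a.s a.n

instance : PartialOrder Nd where
  le a b := a.n ≤ b.n ∧ ∀ i ≤ a.n, a.s i = b.s i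
  le_refl a := ⟨le_rfl, fun _ _ => rfl⟩
  le_trans a b c h1 h2 := ⟨h1.1.trans h2.1, fun i hi => (h1.2 i hi).trans (h2.2 i (hi.trans h1.1))⟩
  le_antisymm a b h1 h2 := by
    obtain ⟨n, s, ha, _, _, _⟩ := a
    obtain ⟨m, t, hb, _, _, _⟩ := b
    have hnm : n = m := le_antisymm h1.1 h2.1
    subst hnm
    have hst : s = t := by
      funext i
      rcases le_or_gt i n with hi | hi
      · exact h1.2 i hi
      · exact (ha i hi).trans (hb i hi).symm
    subst hst
    rfl

theorem le_def {a b : Nd} : a ≤ b ↔ a.n ≤ b.n ∧ ∀ i ≤ a.n, a.s i = b.s i := Iff.rfl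

theorem total_below {a b c : Nd} (h1 : a ≤ c) (h2 : b ≤ c) : a ≤ b ∨ b ≤ a := by
  rcases le_total a.n b.n with h | h
  · exact Or.inl ⟨h, fun i hi => (h1.2 i hi).trans (h2.2 i (hi.trans h)).symm⟩
  · exact Or.inr ⟨h, fun i hi => (h2.2 i hi).trans (h1.2 i (hi.trans h)).symm⟩

theorem rprime (a : Nd) : RPrime a.F := a.prime a.n le_rfl

instance (a : Nd) : a.F.NeBot := a.rprime.ne

theorem tendsto_iter (a : Nd) (k : ℕ) : ∀ i, i + k ≤ a.n → Tendsto (pr^[k]) (a.s (i + k)) (a.s i) := by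
  induction k with
  | zero => intro i _; exact tendsto_id
  | succ k ih =>
    intro i hi
    have h1 := ih (i + 1) (by omega)
    have h2 := a.tend i (by omega)
    rw [Function.iterate_succ']
    have h3 : i + 1 + k = i + (k + 1) := by omega
    rw [h3] at h1
    exact h2.comp h1

theorem tendsto_of_le {a b : Nd} (h : a ≤ b) : Tendsto (pr^[b.n - a.n]) b.F a.F := by
  have h1 := b.tendsto_iter (b.n - a.n) a.n (by have := h.1; omega)
  have h2 : a.n + (b.n - a.n) = b.n := by have := h.1; omega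
  rw [h2] at h1
  unfold F
  rw [h.2 a.n le_rfl]
  exact h1

/-- transport of a function -/
def lift (a b : Nd) (f : ℕ → ℕ) : ℕ → ℕ := fun x => f (pr^[b.n - a.n] x)

theorem lift_self (a : Nd) (f : ℕ → ℕ) : lift a a f = f := by
  funext x; simp [lift]

theorem lift_lift {a b c : Nd} (h1 : a ≤ b) (h2 : b ≤ c) (f : ℕ → ℕ) :
    lift b c (lift a b f) = lift a c f := by
  funext x
  unfold lift
  rw [← Function.iterate_add_apply]
  congr 2
  have := h1.1; have := h2.1
  omega

theorem lift_mem {a b : Nd} (h : a ≤ b) {f : ℕ → ℕ} (hf : f ∈ PE a.F) : lift a b f ∈ PE b.F :=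
  PE.tendsto (q := pr^[b.n - a.n]) hf (primrec_iter_pr _) (tendsto_of_le h)

theorem lift_congr {a b : Nd} (h : a ≤ b) {f g : ℕ → ℕ} (hfg : f =ᶠ[a.F] g) :
    lift a b f =ᶠ[b.F] lift a b g :=
  (tendsto_of_le h).eventually hfg

theorem lift_inj {a b : Nd} (h : a ≤ b) {f g : ℕ → ℕ} (hf : f ∈ PE a.F) (hg : g ∈ PE a.F)
    (hfg : lift a b f =ᶠ[b.F] lift a b g) : f =ᶠ[a.F] g := by
  rcases a.rprime.dec_eq hf hg with h1 | h1
  · exact h1
  · exfalso
    have h2 := (tendsto_of_le h).eventually h1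
    obtain ⟨x, hx1, hx2⟩ := (h2.and hfg).exists
    exact hx1 hx2

end Nd

/-- Pre-elements of the universe. -/
def PreU : Type := Σ a : Nd, PE a.F

def PreU.rel (x y : PreU) : Prop :=
  ∃ c : Nd, c ≤ x.1 ∧ c ≤ y.1 ∧ ∃ h ∈ PE c.F,
    (x.2 : ℕ → ℕ) =ᶠ[x.1.F] Nd.lift c x.1 h ∧ (y.2 : ℕ → ℕ) =ᶠ[y.1.F] Nd.lift c y.1 h

theorem PreU.rel_equiv : Equivalence PreU.rel where
  refl x := ⟨x.1, le_rfl, le_rfl, x.2, x.2.2, by simp [Nd.lift_self], by simp [Nd.lift_self]⟩
  symm := by
    rintro x y ⟨c, h1, h2, h, hh, e1, e2⟩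
    exact ⟨c, h2, h1, h, hh, e2, e1⟩
  trans := by
    rintro x y z ⟨c, hcx, hcy, f, hf, e1, e2⟩ ⟨d, hdy, hdz, g, hg, e3, e4⟩
    rcases Nd.total_below hcy hdy with hcd | hdc
    · refine ⟨c, hcx, hcd.trans hdz, f, hf, e1, e4.trans ?_⟩
      have e5 : Nd.lift d y.1 g =ᶠ[y.1.F] Nd.lift d y.1 (Nd.lift c d f) := by
        rw [Nd.lift_lift hcd hdy]
        exact e3.symm.trans e2
      have e6 := Nd.lift_inj hdy hg (Nd.lift_mem hcd hf) e5
      have e7 := Nd.lift_congr hdz e6
      rw [Nd.lift_lift hcd hdz] at e7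
      exact e7
    · refine ⟨d, hdc.trans hcx, hdz, g, hg, e1.trans ?_, e4⟩
      have e5 : Nd.lift c y.1 f =ᶠ[y.1.F] Nd.lift c y.1 (Nd.lift d c g) := by
        rw [Nd.lift_lift hdc hcy]
        exact e2.symm.trans e3
      have e6 := Nd.lift_inj hcy hf (Nd.lift_mem hdc hg) e5
      have e7 := Nd.lift_congr hcx e6
      rw [Nd.lift_lift hdc hcx] at e7
      exact e7

instance preUSetoid : Setoid PreU := ⟨PreU.rel, PreU.rel_equiv⟩

def Univ : Type := Quotient preUSetoid

def mkU (a : Nd) (f : PE a.F) : Univ := Quotient.mk preUSetoid ⟨a, f⟩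

theorem mkU_eq_iff {a : Nd} {f g : PE a.F} : mkU a f = mkU a g ↔ (f : ℕ → ℕ) =ᶠ[a.F] g := by
  constructor
  · intro h
    obtain ⟨c, h1, h2, k, hk, e1, e2⟩ := Quotient.exact h
    exact e1.trans e2.symm
  · intro h
    apply Quotient.sound
    exact ⟨a, le_rfl, le_rfl, f, f.2, by simp [Nd.lift_self], by simpa [Nd.lift_self] using h.symm⟩

def liftE {a b : Nd} (h : a ≤ b) (f : PE a.F) : PE b.F := ⟨Nd.lift a b f, Nd.lift_mem h f.2⟩

theorem mkU_lift {a b : Nd} (h : a ≤ b) (f : PE a.F) : mkU b (liftE h f) = mkU a f := by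
  apply Quotient.sound
  exact ⟨a, h, le_rfl, f, f.2, by simp [liftE], by simp [Nd.lift_self]⟩

def domU (a : Nd) : Set Univ := Set.range (mkU a)

theorem domU_mono {a b : Nd} (h : a ≤ b) : domU a ⊆ domU b := by
  rintro _ ⟨f, rfl⟩
  exact ⟨liftE h f, mkU_lift h f⟩

def el (a : Nd) (f : PE a.F) : domU a := ⟨mkU a f, f, rfl⟩

theorem el_eq_iff {a : Nd} {f g : PE a.F} : el a f = el a g ↔ (f : ℕ → ℕ) =ᶠ[a.F] g := by
  constructor
  · intro h
    exact mkU_eq_iff.1 (congrArg Subtype.val h)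
  · intro h
    exact Subtype.ext (mkU_eq_iff.2 h)

theorem el_surj (a : Nd) (x : domU a) : ∃ f, el a f = x := by
  obtain ⟨_, f, rfl⟩ := x
  exact ⟨f, rfl⟩

theorem incl_el {a b : Nd} (h : a ≤ b) (f : PE a.F) :
    Set.inclusion (domU_mono h) (el a f) = el b (liftE h f) := by
  apply Subtype.ext
  exact (mkU_lift h f).symm

noncomputable def rep (a : Nd) (x : domU a) : PE a.F := (el_surj a x).choose

theorem el_rep (a : Nd) (x : domU a) : el a (rep a x) = x := (el_surj a x).choose_spec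

theorem rep_el (a : Nd) (f : PE a.F) : (rep a (el a f) : ℕ → ℕ) =ᶠ[a.F] f :=
  el_eq_iff.1 (el_rep a (el a f))

/-- the standard structure -/
def natA : Arith ℕ := ⟨0, Nat.succ, (· + ·), (· * ·)⟩

def zeroE (a : Nd) : PE a.F := ⟨fun _ => 0, PE.const 0⟩
def succE {a : Nd} (f : PE a.F) : PE a.F := ⟨fun x => Nat.succ (f.1 x), PE.prim₁ f.2 Primrec.succ⟩
def addE {a : Nd} (f g : PE a.F) : PE a.F :=
  ⟨fun x => f.1 x + g.1 x, PE.prim₂ f.2 g.2 Primrec.nat_add⟩
def mulE {a : Nd} (f g : PE a.F) : PE a.F :=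
  ⟨fun x => f.1 x * g.1 x, PE.prim₂ f.2 g.2 Primrec.nat_mul⟩

noncomputable def strU (a : Nd) : Arith (domU a) where
  zero := el a (zeroE a)
  succ x := el a (succE (rep a x))
  add x y := el a (addE (rep a x) (rep a y))
  mul x y := el a (mulE (rep a x) (rep a y))

theorem strU_succ (a : Nd) (f : PE a.F) : (strU a).succ (el a f) = el a (succE f) := by
  rw [strU, el_eq_iff]
  filter_upwards [rep_el a f] with x hx
  simp [succE, hx]

theorem strU_add (a : Nd) (f g : PE a.F) : (strU a).add (el a f) (el a g) = el a (addE f g) := by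
  rw [strU, el_eq_iff]
  filter_upwards [rep_el a f, rep_el a g] with x hx hy
  simp [addE, hx, hy]

theorem strU_mul (a : Nd) (f g : PE a.F) : (strU a).mul (el a f) (el a g) = el a (mulE f g) := by
  rw [strU, el_eq_iff]
  filter_upwards [rep_el a f, rep_el a g] with x hx hy
  simp [mulE, hx, hy]

/-- value of a term as a function -/
def Tm.fn (t : Tm) {a : Nd} (v : ℕ → PE a.F) : PE a.F :=
  match t with
  | .var n => v n
  | .zero => zeroE a
  | .succ t => succE (t.fn v)
  | .add s t => addE (s.fn v) (t.fn v)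
  | .mul s t => mulE (s.fn v) (t.fn v)

theorem Tm.fn_apply (t : Tm) {a : Nd} (v : ℕ → PE a.F) (x : ℕ) :
    (t.fn v).1 x = t.val natA (fun i => (v i).1 x) := by
  induction t with
  | var n => rfl
  | zero => rfl
  | succ t ih => simp only [Tm.fn, Tm.val, succE, ih, natA]
  | add s t ihs iht => simp only [Tm.fn, Tm.val, addE, ihs, iht, natA]
  | mul s t ihs iht => simp only [Tm.fn, Tm.val, mulE, ihs, iht, natA]

theorem Tm.val_el (t : Tm) {a : Nd} (v : ℕ → PE a.F) :
    t.val (strU a) (fun i => el a (v i)) = el a (t.fn v) := by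
  induction t with
  | var n => rfl
  | zero => rfl
  | succ t ih => simp only [Tm.fn, Tm.val, ih, strU_succ]
  | add s t ihs iht => simp only [Tm.fn, Tm.val, ihs, iht, strU_add]
  | mul s t ihs iht => simp only [Tm.fn, Tm.val, ihs, iht, strU_mul]

theorem Tm.val_el_eq (s t : Tm) {a : Nd} (v : ℕ → PE a.F) :
    s.val (strU a) (fun i => el a (v i)) = t.val (strU a) (fun i => el a (v i)) ↔
      ∀ᶠ x in a.F, s.val natA (fun i => (v i).1 x) = t.val natA (fun i => (v i).1 x) := by
  rw [Tm.val_el, Tm.val_el, el_eq_iff]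
  simp only [EventuallyEq, Tm.fn_apply]

/-- The root node. -/
noncomputable def rootNd : Nd where
  n := 0
  s i := if i = 0 then (hyperfilter ℕ : Filter ℕ) else ⊥
  above i hi := by simp [hi.ne']
  prime i hi := by
    have : i = 0 := by omega
    subst this
    simp only [if_true]
    refine ⟨inferInstance, fun f _ => ?_⟩
    rcases Ultrafilter.em (hyperfilter ℕ) (fun x => f x = 0) with h | h
    · exact Or.inl h
    · exact Or.inr h
  tend i hi := by omega
  root := by simpa using hyperfilter_le_cofinite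

noncomputable def theModel : KripkeModel where
  Node := Nd
  order := inferInstance
  nonempty := ⟨rootNd⟩
  U := Univ
  dom := domU
  str := strU
  dom_mono := domU_mono
  atomic_mono := by
    intro a b h s t v hv
    choose w hw using fun i => el_surj a (v i)
    have hv' : v = fun i => el a (w i) := funext fun i => (hw i).symm
    subst hv'
    have e : (fun i => Set.inclusion (domU_mono h) (el a (w i))) = fun i => el b (liftE h (w i)) :=
      funext fun i => incl_el h (w i)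
    change s.val (strU b) (fun i => Set.inclusion (domU_mono h) (el a (w i))) =
      t.val (strU b) (fun i => Set.inclusion (domU_mono h) (el a (w i)))
    rw [e]
    rw [Tm.val_el_eq] at hv ⊢
    exact (Nd.tendsto_of_le h).eventually hv

end Pool.Agent.Helper52.KripkeHA
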