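import Pool.Agent.Helper52.KripkeHA.Prim

namespace Pool.Agent.Helper52.KripkeHA

open Filter Nat.Partrec

/-- step-indexed evaluation as a function on numbers -/
def evU (z : ℕ) : ℕ :=
  Encodable.encode (Code.evaln z.unpair.1.unpair.1 (Denumerable.ofNat Code z.unpair.1.unpair.2)
    z.unpair.2)

theorem evU_prim : Nat.Primrec evU := by
  have h : Primrec evU := by
    refine Primrec.encode.comp (Code.primrec_evaln.comp (Primrec.pair (Primrec.pair ?_ ?_) ?_))
    · exact Primrec.fst.comp (Primrec.unpair.comp (Primrec.fst.comp Primrec.unpair))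
    · exact (Primrec.ofNat Code).comp
        (Primrec.snd.comp (Primrec.unpair.comp (Primrec.fst.comp Primrec.unpair)))
    · exact Primrec.snd.comp Primrec.unpair
  exact Primrec.nat_iff.1 h

theorem mem_app_iff (i a b : ℕ) : b ∈ app i a ↔ ∃ k, evU (Nat.pair (Nat.pair k i) a) = b + 1 := by
  unfold app
  rw [Code.evaln_complete]
  apply exists_congr
  intro k
  simp only [evU, Nat.unpair_pair]
  constructor
  · intro h
    rw [Option.mem_def] at h
    rw [h]; rfl
  · intro h
    rw [Option.mem_def]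
    cases hh : Code.evaln k (Denumerable.ofNat Code i) a with
    | none => rw [hh] at h; simp at h
    | some c => rw [hh] at h; simp at h; rw [h]

/-- A formula defining the graph of the universal function. -/
theorem exists_appFm : ∃ A : Fm, Los A ∧ ∀ v, nsat A v ↔ v 2 ∈ app (v 0) (v 1) := by
  obtain ⟨T, hT⟩ := exists_graphRep evU_prim
  have h : DR (fun v => ∃ k, k < v 0 + 1 ∧ ∃ t, t < v 0 + 1 ∧ (t = Nat.pair k (v 1) ∧
      ∃ x, x < v 0 + 1 ∧ (x = Nat.pair t (v 2) ∧ T x (v 3 + 1) (v 0)))) := by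
    refine DR.bex (.succ (.var 0)) (R := fun v k => ∃ t, t < v 0 + 1 ∧ (t = Nat.pair k (v 1) ∧
      ∃ x, x < v 0 + 1 ∧ (x = Nat.pair t (v 2) ∧ T x (v 3 + 1) (v 0)))) ?_
    refine DR.bex (.succ (.var 1)) (R := fun v t => (t = Nat.pair (v 0) (v 2) ∧
      ∃ x, x < v 1 + 1 ∧ (x = Nat.pair t (v 3) ∧ T x (v 4 + 1) (v 1)))) ?_
    refine (DR.pair (.var 0) (.var 1) (.var 3)).and ?_
    refine DR.bex (.succ (.var 2)) (R := fun v x =>
      (x = Nat.pair (v 0) (v 4) ∧ T x (v 5 + 1) (v 2))) ?_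
    exact (DR.pair (.var 0) (.var 1) (.var 5)).and
      (hT.dr.subst₃ (.var 0) (.succ (.var 6)) (.var 3))
  obtain ⟨φ, hφ, hR⟩ := h
  refine ⟨.ex φ, Los.ex hφ, fun v => ?_⟩
  have h1 : nsat (.ex φ) v ↔ ∃ w, nsat φ (cons w v) := Iff.rfl
  rw [h1, mem_app_iff]
  simp only [hR]
  constructor
  · rintro ⟨w, k, _, t, _, ht, x, _, hx, hT'⟩
    refine ⟨k, ?_⟩
    have := hT.sound _ _ _ hT'
    rw [hx, ht] at this
    exact this.symm
  · rintro ⟨k, hk⟩
    obtain ⟨w, hw⟩ := hT.compl (Nat.pair (Nat.pair k (v 0)) (v 1))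
    rw [hk] at hw
    refine ⟨w + k + Nat.pair k (v 0) + Nat.pair (Nat.pair k (v 0)) (v 1), k, ?_,
      Nat.pair k (v 0), ?_, rfl, Nat.pair (Nat.pair k (v 0)) (v 1), ?_, rfl, ?_⟩
    · simp only [cons]; omega
    · simp only [cons]; omega
    · simp only [cons]; omega
    · exact hT.mono _ _ _ _ (by simp only [cons]; omega) hw

/-- order in the structure -/
def LT' (a : Nd) (x y : domU a) : Prop := ∃ d, (strU a).add x ((strU a).succ d) = y

theorem LT'_iff (a : Nd) (f g : PE a.F) : LT' a (el a f) (el a g) ↔ ∀ᶠ x in a.F, f.1 x < g.1 x := by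
  have h := (Dl.lt (.var 0) (.var 1)).los a (cons (D := PE a.F) f (fun _ => g))
  rw [sat_ltFm] at h
  have h2 : (∃ d, (strU a).add (el a f) ((strU a).succ d) = el a g) ↔ _ := h
  rw [LT', h2]
  simp only [nsat_ltFm]
  rfl

theorem not_satPA (a : Nd) : ¬ theModel.SatPA a := by
  intro hPA
  obtain ⟨A, hA, hAn⟩ := exists_appFm
  -- variables in the matrix: b = 0, i = 1, d = 2, n = 3, a = 4
  let σ : ℕ → Tm := cons (.var 1) (cons (.var 4) (fun _ => .var 0))
  let Φ : Fm := .ex (.all (.all (.imp (.and (ltFm (.var 1) (.var 3)) (A.subst σ))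
    (ltFm (.var 0) (.var 2)))))
  let AP : domU a → domU a → Prop := fun i b =>
    A.Sat (strU a) (cons i (cons (el a ⟨_, PE.id⟩) (fun _ => b)))
  have hAP : ∀ fi fb : PE a.F, AP (el a fi) (el a fb) ↔ ∀ᶠ x in a.F, fb.1 x ∈ app (fi.1 x) x := by
    intro fi fb
    have h1 := hA a (cons (D := PE a.F) fi (cons (D := PE a.F) ⟨_, PE.id⟩ (fun _ => fb)))
    rw [el_cons, el_cons] at h1
    simp only [hAn] at h1
    exact h1
  have hΦ : ∀ x, Φ.Sat (strU a) (cons x (fun _ => el a ⟨_, PE.id⟩)) ↔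
      ∃ d, ∀ i b, (LT' a i x ∧ AP i b) → LT' a b d := by
    intro x
    simp only [Φ, Fm.Sat, sat_ltFm, Fm.sat_subst]
    refine exists_congr fun d => forall_congr' fun i => forall_congr' fun b => ?_
    have e : (fun j => (σ j).val (strU a)
        (cons b (cons i (cons d (cons x fun _ => el a ⟨fun x => x, PE.id⟩))))) =
        cons i (cons (el a ⟨_, PE.id⟩) (fun _ => b)) := by
      funext j
      match j with
      | 0 => rfl
      | 1 => rfl
      | (j + 2) => rfl
    rw [e]
    rfl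
  have hind := hPA _ (IsAxiom.induction Φ) (fun _ => el a ⟨_, PE.id⟩)
  have hind' : (Φ.Sat (strU a) (cons (strU a).zero (fun _ => el a ⟨_, PE.id⟩)) ∧
      ∀ x, Φ.Sat (strU a) (cons x (fun _ => el a ⟨_, PE.id⟩)) →
        Φ.Sat (strU a) (cons ((strU a).succ x) (fun _ => el a ⟨_, PE.id⟩))) →
      ∀ x, Φ.Sat (strU a) (cons x (fun _ => el a ⟨_, PE.id⟩)) := by
    rintro ⟨h0, hs⟩
    apply hind
    refine ⟨?_, fun x hx => ?_⟩
    · refine (Fm.sat_subst (strU a) Φ _ _).2 ?_
      rw [val_cons_zero]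
      exact h0
    · refine (Fm.sat_subst (strU a) Φ _ _).2 ?_
      have h2 := hs x hx
      rw [← val_cons_succ (strU a) x] at h2
      exact h2
  have hall : ∀ x, ∃ d, ∀ i b, (LT' a i x ∧ AP i b) → LT' a b d := by
    intro x
    rw [← hΦ]
    apply hind'
    refine ⟨?_, fun x hx => ?_⟩
    · rw [hΦ]
      refine ⟨(strU a).zero, ?_⟩
      rintro i b ⟨h1, -⟩
      obtain ⟨fi, rfl⟩ := el_surj a i
      have h2 := (LT'_iff a fi (zeroE a)).1 h1
      obtain ⟨t, ht⟩ := h2.exists
      exact absurd ht (Nat.not_lt_zero _)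
    · rw [hΦ] at hx ⊢
      obtain ⟨d, hd⟩ := hx
      obtain ⟨fx, rfl⟩ := el_surj a x
      obtain ⟨fd, rfl⟩ := el_surj a d
      rw [strU_succ]
      by_cases hex : ∃ b0, AP (el a fx) b0
      · obtain ⟨b0, hb0⟩ := hex
        obtain ⟨f0, rfl⟩ := el_surj a b0
        refine ⟨el a (addE fd (succE f0)), ?_⟩
        rintro i b ⟨h1, h2⟩
        obtain ⟨fi, rfl⟩ := el_surj a i
        obtain ⟨fb, rfl⟩ := el_surj a b
        rw [LT'_iff] at h1 ⊢
        rcases a.rprime.dec_eq fi.2 fx.2 with h3 | h3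
        · -- same index
          have h4 := (hAP _ _).1 h2
          have h5 := (hAP _ _).1 hb0
          filter_upwards [h3, h4, h5] with t h3 h4 h5
          rw [h3] at h4
          have := Part.mem_unique h4 h5
          simp only [addE, succE]
          omega
        · have h4 : LT' a (el a fi) (el a fx) := by
            rw [LT'_iff]
            filter_upwards [h1, h3] with t h1 h3
            simp only [succE] at h1
            omega
          have h5 := (LT'_iff _ _ _).1 (hd _ _ ⟨h4, h2⟩)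
          filter_upwards [h5] with t h5
          simp only [addE]
          omega
      · refine ⟨el a fd, ?_⟩
        rintro i b ⟨h1, h2⟩
        obtain ⟨fi, rfl⟩ := el_surj a i
        rw [LT'_iff] at h1
        rcases a.rprime.dec_eq fi.2 fx.2 with h3 | h3
        · exfalso
          apply hex
          refine ⟨b, ?_⟩
          have e : el a fi = el a fx := el_eq_iff.2 h3
          rw [← e]; exact h2
        · have h4 : LT' a (el a fi) (el a fx) := by
            rw [LT'_iff]
            filter_upwards [h1, h3] with t h1 h3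
            simp only [succE] at h1
            omega
          exact hd _ _ ⟨h4, h2⟩
  -- a nonstandard element
  have hc : (pr^[a.n]) ∈ PE a.F := PE.prim (h := pr^[a.n]) PE.id (primrec_iter_pr a.n)
  obtain ⟨d, hd⟩ := hall (el a ⟨_, hc⟩)
  obtain ⟨fd, rfl⟩ := el_surj a d
  obtain ⟨g, hg, hfg⟩ := fd.2
  obtain ⟨c0, hc0⟩ := Code.exists_code.1 hg
  have h1 : LT' a (el a ⟨_, PE.const (Encodable.encode c0)⟩) (el a ⟨_, hc⟩) := by
    rw [LT'_iff]
    have h2 := a.tendsto_iter a.n 0 (by omega)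
    rw [Nat.zero_add] at h2
    have h3 : ∀ᶠ m in a.s 0, Encodable.encode c0 < m := by
      apply a.root
      rw [mem_cofinite]
      apply (Set.finite_Iic (Encodable.encode c0)).subset
      intro m hm
      simpa using hm
    exact h2.eventually h3
  have h2 : AP (el a ⟨_, PE.const (Encodable.encode c0)⟩) (el a fd) := by
    rw [hAP]
    filter_upwards [hfg] with t ht
    simp only [app, Denumerable.ofNat_encode, hc0]
    exact ht
  have h3 := (LT'_iff _ _ _).1 (hd _ _ ⟨h1, h2⟩)
  obtain ⟨t, ht⟩ := h3.exists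
  exact lt_irrefl _ ht

theorem final : ∃ K : KripkeModel, K.ForcesHA ∧ ∀ k : K.Node, ¬ K.SatPA k :=
  ⟨theModel, theModel_forcesHA, not_satPA⟩

end Pool.Agent.Helper52.KripkeHA
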