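import Pool.Agent.Helper52.KripkeHA.Rep

namespace Pool.Agent.Helper52.KripkeHA

open Filter Nat.Partrec

theorem beta_iff (s i z : ℕ) : z = Nat.beta s i ↔
    ∃ p, p < s + 1 ∧ ∃ q, q < s + 1 ∧ (s = Nat.pair p q ∧ (z < (i + 1) * q + 1 ∧
      ∃ k, k < p + 1 ∧ p = k * ((i + 1) * q + 1) + z)) := by
  constructor
  · rintro rfl
    refine ⟨s.unpair.1, Nat.lt_succ_of_le (Nat.unpair_left_le s), s.unpair.2,
      Nat.lt_succ_of_le (Nat.unpair_right_le s), (Nat.pair_unpair s).symm, ?_, ?_⟩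
    · exact Nat.mod_lt _ (Nat.succ_pos _)
    · refine ⟨s.unpair.1 / ((i + 1) * s.unpair.2 + 1), ?_, ?_⟩
      · exact Nat.lt_succ_of_le (Nat.div_le_self _ _)
      · rw [Nat.beta, Nat.div_add_mod']
  · rintro ⟨p, -, q, -, rfl, hz, k, -, hk⟩
    rw [Nat.beta, Nat.unpair_pair]
    simp only
    rw [hk, Nat.mul_add_mod']
    exact (Nat.mod_eq_of_lt hz).symm

theorem DR.beta : DR (fun v => v 2 = Nat.beta (v 0) (v 1)) := by
  have h : DR (fun v => ∃ p, p < v 0 + 1 ∧ ∃ q, q < v 0 + 1 ∧ (v 0 = Nat.pair p q ∧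
      (v 2 < (v 1 + 1) * q + 1 ∧ ∃ k, k < p + 1 ∧ p = k * ((v 1 + 1) * q + 1) + v 2))) := by
    refine DR.bex (.succ (.var 0)) (R := fun v p => ∃ q, q < v 0 + 1 ∧ (v 0 = Nat.pair p q ∧
      (v 2 < (v 1 + 1) * q + 1 ∧ ∃ k, k < p + 1 ∧ p = k * ((v 1 + 1) * q + 1) + v 2))) ?_
    refine DR.bex (.succ (.var 1)) (R := fun v q => (v 1 = Nat.pair (v 0) q ∧
      (v 3 < (v 2 + 1) * q + 1 ∧ ∃ k, k < v 0 + 1 ∧ v 0 = k * ((v 2 + 1) * q + 1) + v 3))) ?_
    refine (DR.pair (.var 2) (.var 1) (.var 0)).and (DR.and ?_ ?_)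
    · exact DR.lt (.var 4) (.succ (.mul (.succ (.var 3)) (.var 0)))
    · refine DR.bex (.succ (.var 1))
        (R := fun v k => v 1 = k * ((v 3 + 1) * v 0 + 1) + v 4) ?_
      exact DR.eq (.var 2) (.add (.mul (.var 0) (.succ (.mul (.succ (.var 4)) (.var 1)))) (.var 5))
  exact h.congr fun v => beta_iff _ _ _

theorem DR.betaT (s i z : Tm) : DR (fun v => z.val natA v = Nat.beta (s.val natA v) (i.val natA v)) :=
  DR.subst₃ (T := fun s i z => z = Nat.beta s i) DR.beta s i z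

/-- `T` is a bounded description of the graph of `f` -/
structure GraphRep (f : ℕ → ℕ) (T : ℕ → ℕ → ℕ → Prop) : Prop where
  dr : DR (fun v => T (v 0) (v 1) (v 2))
  mono : ∀ x y w w', w ≤ w' → T x y w → T x y w'
  sound : ∀ x y w, T x y w → y = f x
  compl : ∀ x, ∃ w, T x (f x) w

theorem exists_graphRep {f : ℕ → ℕ} (hf : Nat.Primrec f) : ∃ T, GraphRep f T := by
  induction hf with
  | zero =>
    exact ⟨fun _ y _ => y = 0, DR.eq (.var 1) .zero, fun _ _ _ _ _ h => h, fun _ _ _ h => h,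
      fun _ => ⟨0, rfl⟩⟩
  | succ =>
    exact ⟨fun x y _ => y = Nat.succ x, DR.eq (.var 1) (.succ (.var 0)), fun _ _ _ _ _ h => h,
      fun _ _ _ h => h, fun _ => ⟨0, rfl⟩⟩
  | left =>
    refine ⟨fun x y _ => ∃ b, b < x + 1 ∧ x = Nat.pair y b, ?_, fun _ _ _ _ _ h => h, ?_, ?_⟩
    · exact DR.bex (.succ (.var 0)) (R := fun v b => v 0 = Nat.pair (v 1) b)
        (DR.pair (.var 1) (.var 2) (.var 0))
    · rintro x y _ ⟨b, -, rfl⟩
      simp
    · intro x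
      exact ⟨0, x.unpair.2, Nat.lt_succ_of_le (Nat.unpair_right_le x), (Nat.pair_unpair x).symm⟩
  | right =>
    refine ⟨fun x y _ => ∃ b, b < x + 1 ∧ x = Nat.pair b y, ?_, fun _ _ _ _ _ h => h, ?_, ?_⟩
    · exact DR.bex (.succ (.var 0)) (R := fun v b => v 0 = Nat.pair b (v 1))
        (DR.pair (.var 1) (.var 0) (.var 2))
    · rintro x y _ ⟨b, -, rfl⟩
      simp
    · intro x
      exact ⟨0, x.unpair.1, Nat.lt_succ_of_le (Nat.unpair_left_le x), (Nat.pair_unpair x).symm⟩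
  | @pair f g _ _ ihf ihg =>
    obtain ⟨Tf, hf⟩ := ihf
    obtain ⟨Tg, hg⟩ := ihg
    refine ⟨fun x y w => ∃ a, a < y + 1 ∧ ∃ b, b < y + 1 ∧ (Tf x a w ∧ (Tg x b w ∧
      y = Nat.pair a b)), ?_, ?_, ?_, ?_⟩
    · refine DR.bex (.succ (.var 1)) (R := fun v a => ∃ b, b < v 1 + 1 ∧ (Tf (v 0) a (v 2) ∧
        (Tg (v 0) b (v 2) ∧ v 1 = Nat.pair a b))) ?_
      refine DR.bex (.succ (.var 2)) (R := fun v b => (Tf (v 1) (v 0) (v 3) ∧
        (Tg (v 1) b (v 3) ∧ v 2 = Nat.pair (v 0) b))) ?_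
      exact (hf.dr.subst₃ (.var 2) (.var 1) (.var 4)).and
        ((hg.dr.subst₃ (.var 2) (.var 0) (.var 4)).and (DR.pair (.var 3) (.var 1) (.var 0)))
    · rintro x y w w' hw ⟨a, ha, b, hb, h1, h2, h3⟩
      exact ⟨a, ha, b, hb, hf.mono _ _ _ _ hw h1, hg.mono _ _ _ _ hw h2, h3⟩
    · rintro x y w ⟨a, ha, b, hb, h1, h2, h3⟩
      rw [h3, hf.sound _ _ _ h1, hg.sound _ _ _ h2]
    · intro x
      obtain ⟨w1, h1⟩ := hf.compl x
      obtain ⟨w2, h2⟩ := hg.compl x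
      exact ⟨max w1 w2, f x, Nat.lt_succ_of_le (Nat.left_le_pair _ _), g x,
        Nat.lt_succ_of_le (Nat.right_le_pair _ _), hf.mono _ _ _ _ (le_max_left _ _) h1,
        hg.mono _ _ _ _ (le_max_right _ _) h2, rfl⟩
  | @comp f g _ _ ihf ihg =>
    obtain ⟨Tf, hf⟩ := ihf
    obtain ⟨Tg, hg⟩ := ihg
    refine ⟨fun x y w => ∃ z, z < w + 1 ∧ (Tg x z w ∧ Tf z y w), ?_, ?_, ?_, ?_⟩
    · refine DR.bex (.succ (.var 2)) (R := fun v z => (Tg (v 0) z (v 2) ∧ Tf z (v 1) (v 2))) ?_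
      exact (hg.dr.subst₃ (.var 1) (.var 0) (.var 3)).and
        (hf.dr.subst₃ (.var 0) (.var 2) (.var 3))
    · rintro x y w w' hw ⟨z, hz, h1, h2⟩
      exact ⟨z, by omega, hg.mono _ _ _ _ hw h1, hf.mono _ _ _ _ hw h2⟩
    · rintro x y w ⟨z, hz, h1, h2⟩
      rw [hf.sound _ _ _ h2, hg.sound _ _ _ h1]
    · intro x
      obtain ⟨w1, h1⟩ := hg.compl x
      obtain ⟨w2, h2⟩ := hf.compl (g x)
      refine ⟨g x + w1 + w2, g x, by omega, hg.mono _ _ _ _ (by omega) h1,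
        hf.mono _ _ _ _ (by omega) h2⟩
  | @prec f g _ _ ihf ihg =>
    obtain ⟨Tf, hf⟩ := ihf
    obtain ⟨Tg, hg⟩ := ihg
    refine ⟨fun x y w => ∃ a, a < w + 1 ∧ ∃ n, n < w + 1 ∧ (x = Nat.pair a n ∧
      ∃ s, s < w + 1 ∧ ((∃ z, z < w + 1 ∧ (z = Nat.beta s 0 ∧ Tf a z w)) ∧
      ((∀ i, i < n → ∃ z, z < w + 1 ∧ ∃ z', z' < w + 1 ∧ (z = Nat.beta s i ∧
        (z' = Nat.beta s (i + 1) ∧ ∃ u, u < w + 1 ∧ ∃ u', u' < w + 1 ∧
        (u = Nat.pair i z ∧ (u' = Nat.pair a u ∧ Tg u' z' w))))) ∧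
      y = Nat.beta s n))), ?_, ?_, ?_, ?_⟩
    · -- definability
      refine DR.bex (.succ (.var 2)) (R := fun v a => ∃ n, n < v 2 + 1 ∧ (v 0 = Nat.pair a n ∧
        ∃ s, s < v 2 + 1 ∧ ((∃ z, z < v 2 + 1 ∧ (z = Nat.beta s 0 ∧ Tf a z (v 2))) ∧
        ((∀ i, i < n → ∃ z, z < v 2 + 1 ∧ ∃ z', z' < v 2 + 1 ∧ (z = Nat.beta s i ∧
        (z' = Nat.beta s (i + 1) ∧ ∃ u, u < v 2 + 1 ∧ ∃ u', u' < v 2 + 1 ∧
        (u = Nat.pair i z ∧ (u' = Nat.pair a u ∧ Tg u' z' (v 2)))))) ∧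
        v 1 = Nat.beta s n)))) ?_
      -- a = v 0, x = v 1, y = v 2, w = v 3
      refine DR.bex (.succ (.var 3)) (R := fun v n => (v 1 = Nat.pair (v 0) n ∧
        ∃ s, s < v 3 + 1 ∧ ((∃ z, z < v 3 + 1 ∧ (z = Nat.beta s 0 ∧ Tf (v 0) z (v 3))) ∧
        ((∀ i, i < n → ∃ z, z < v 3 + 1 ∧ ∃ z', z' < v 3 + 1 ∧ (z = Nat.beta s i ∧
        (z' = Nat.beta s (i + 1) ∧ ∃ u, u < v 3 + 1 ∧ ∃ u', u' < v 3 + 1 ∧
        (u = Nat.pair i z ∧ (u' = Nat.pair (v 0) u ∧ Tg u' z' (v 3)))))) ∧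
        v 2 = Nat.beta s n)))) ?_
      -- n = v 0, a = v 1, x = v 2, y = v 3, w = v 4
      refine (DR.pair (.var 2) (.var 1) (.var 0)).and ?_
      refine DR.bex (.succ (.var 4)) (R := fun v s =>
        ((∃ z, z < v 4 + 1 ∧ (z = Nat.beta s 0 ∧ Tf (v 1) z (v 4))) ∧
        ((∀ i, i < v 0 → ∃ z, z < v 4 + 1 ∧ ∃ z', z' < v 4 + 1 ∧ (z = Nat.beta s i ∧
        (z' = Nat.beta s (i + 1) ∧ ∃ u, u < v 4 + 1 ∧ ∃ u', u' < v 4 + 1 ∧
        (u = Nat.pair i z ∧ (u' = Nat.pair (v 1) u ∧ Tg u' z' (v 4)))))) ∧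
        v 3 = Nat.beta s (v 0)))) ?_
      -- s = v 0, n = v 1, a = v 2, x = v 3, y = v 4, w = v 5
      refine DR.and ?_ (DR.and ?_ ?_)
      · refine DR.bex (.succ (.var 5)) (R := fun v z =>
          (z = Nat.beta (v 0) 0 ∧ Tf (v 2) z (v 5))) ?_
        exact (DR.betaT (.var 1) .zero (.var 0)).and (hf.dr.subst₃ (.var 3) (.var 0) (.var 6))
      · refine DR.ball (.var 1) (R := fun v i => ∃ z, z < v 5 + 1 ∧ ∃ z', z' < v 5 + 1 ∧
          (z = Nat.beta (v 0) i ∧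
          (z' = Nat.beta (v 0) (i + 1) ∧ ∃ u, u < v 5 + 1 ∧ ∃ u', u' < v 5 + 1 ∧
          (u = Nat.pair i z ∧ (u' = Nat.pair (v 2) u ∧ Tg u' z' (v 5)))))) ?_
        -- i = v 0, s = v 1, n = v 2, a = v 3, w = v 6
        refine DR.bex (.succ (.var 6)) (R := fun v z => ∃ z', z' < v 6 + 1 ∧
          (z = Nat.beta (v 1) (v 0) ∧
          (z' = Nat.beta (v 1) (v 0 + 1) ∧ ∃ u, u < v 6 + 1 ∧ ∃ u', u' < v 6 + 1 ∧
          (u = Nat.pair (v 0) z ∧ (u' = Nat.pair (v 3) u ∧ Tg u' z' (v 6)))))) ?_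
        -- z = v 0, i = v 1, s = v 2, n = v 3, a = v 4, w = v 7
        refine DR.bex (.succ (.var 7)) (R := fun v z' =>
          (v 0 = Nat.beta (v 2) (v 1) ∧
          (z' = Nat.beta (v 2) (v 1 + 1) ∧ ∃ u, u < v 7 + 1 ∧ ∃ u', u' < v 7 + 1 ∧
          (u = Nat.pair (v 1) (v 0) ∧ (u' = Nat.pair (v 4) u ∧ Tg u' z' (v 7)))))) ?_
        -- z' = v 0, z = v 1, i = v 2, s = v 3, n = v 4, a = v 5, w = v 8
        refine (DR.betaT (.var 3) (.var 2) (.var 1)).and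
          ((DR.betaT (.var 3) (.succ (.var 2)) (.var 0)).and ?_)
        refine DR.bex (.succ (.var 8)) (R := fun v u => ∃ u', u' < v 8 + 1 ∧
          (u = Nat.pair (v 2) (v 1) ∧ (u' = Nat.pair (v 5) u ∧ Tg u' (v 0) (v 8)))) ?_
        -- u = v 0, z' = v 1, z = v 2, i = v 3, s = v 4, n = v 5, a = v 6, w = v 9
        refine DR.bex (.succ (.var 9)) (R := fun v u' =>
          (v 0 = Nat.pair (v 3) (v 2) ∧ (u' = Nat.pair (v 6) (v 0) ∧ Tg u' (v 1) (v 9)))) ?_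
        -- u' = v 0, u = v 1, z' = v 2, z = v 3, i = v 4, s = v 5, n = v 6, a = v 7, w = v 10
        exact (DR.pair (.var 1) (.var 4) (.var 3)).and ((DR.pair (.var 0) (.var 7) (.var 1)).and
          (hg.dr.subst₃ (.var 0) (.var 2) (.var 10)))
      · exact DR.betaT (.var 0) (.var 1) (.var 4)
    · -- monotone
      rintro x y w w' hw ⟨a, ha, n, hn, hx, s, hs, ⟨z, hz, hz1, hz2⟩, hrec, hy⟩
      refine ⟨a, by omega, n, by omega, hx, s, by omega,
        ⟨z, by omega, hz1, hf.mono _ _ _ _ hw hz2⟩, ?_, hy⟩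
      intro i hi
      obtain ⟨z, hz, z', hz', h1, h2, u, hu, u', hu', h3, h4, h5⟩ := hrec i hi
      exact ⟨z, by omega, z', by omega, h1, h2, u, by omega, u', by omega, h3, h4,
        hg.mono _ _ _ _ hw h5⟩
    · -- sound
      rintro x y w ⟨a, ha, n, hn, hx, s, hs, ⟨z, hz, hz1, hz2⟩, hrec, hy⟩
      have key : ∀ i, i ≤ n → Nat.beta s i =
          Nat.rec (motive := fun _ => ℕ) (f a) (fun y IH => g (Nat.pair a (Nat.pair y IH))) i := by
        intro i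
        induction i with
        | zero =>
          intro _
          rw [← hz1]
          exact hf.sound _ _ _ hz2
        | succ i ih =>
          intro hi
          obtain ⟨z, hz, z', hz', h1, h2, u, hu, u', hu', h3, h4, h5⟩ := hrec i (by omega)
          have h6 := hg.sound _ _ _ h5
          rw [← h2, h6, h4, h3, h1, ih (by omega)]
      rw [hy, key n le_rfl, hx]
      simp only [Nat.unpaired, Nat.unpair_pair]
    · -- complete
      intro x
      set a := x.unpair.1 with ha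
      set n := x.unpair.2 with hn
      set h : ℕ → ℕ := fun i =>
        Nat.rec (motive := fun _ => ℕ) (f a) (fun y IH => g (Nat.pair a (Nat.pair y IH))) i with hh
      set l : List ℕ := (List.range (n + 1)).map h with hl
      have hlen : l.length = n + 1 := by simp [hl]
      have hbeta : ∀ i, i ≤ n → Nat.beta (Nat.unbeta l) i = h i := by
        intro i hi
        have := Nat.beta_unbeta_coe l ⟨i, by omega⟩
        rw [show ((⟨i, by omega⟩ : Fin l.length) : ℕ) = i from rfl] at this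
        rw [this]
        simp [hl]
      obtain ⟨w0, hw0⟩ := hf.compl a
      choose W hW using hg.compl
      let B : ℕ → ℕ := fun i => h i + h (i + 1) + Nat.pair i (h i) +
        Nat.pair a (Nat.pair i (h i)) + W (Nat.pair a (Nat.pair i (h i)))
      have hB : ∀ i, i ≤ n → B i ≤ ∑ j ∈ Finset.range (n + 1), B j := by
        intro i hi
        exact Finset.single_le_sum (f := B) (fun _ _ => Nat.zero_le _)
          (Finset.mem_range.2 (by omega))
      refine ⟨a + n + Nat.unbeta l + w0 + ∑ j ∈ Finset.range (n + 1), B j, a, by omega, n,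
        by omega, (Nat.pair_unpair x).symm, Nat.unbeta l, by omega, ?_, ?_, ?_⟩
      · have := hB 0 (by omega)
        have h0 : h 0 ≤ B 0 := by simp only [B]; omega
        refine ⟨h 0, by omega, (hbeta 0 (by omega)).symm, hf.mono _ _ _ _ (by omega) hw0⟩
      · intro i hi
        have h1 := hB i (by omega)
        have h2 : h i ≤ B i := by simp only [B]; omega
        have h3 : h (i + 1) ≤ B i := by simp only [B]; omega
        have h4 : Nat.pair i (h i) ≤ B i := by simp only [B]; omega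
        have h5 : Nat.pair a (Nat.pair i (h i)) ≤ B i := by simp only [B]; omega
        have h6 : W (Nat.pair a (Nat.pair i (h i))) ≤ B i := by simp only [B]; omega
        refine ⟨h i, by omega, h (i + 1), by omega, (hbeta i (by omega)).symm,
          (hbeta (i + 1) (by omega)).symm, Nat.pair i (h i), by omega,
          Nat.pair a (Nat.pair i (h i)), by omega, rfl, rfl, ?_⟩
        have := hW (Nat.pair a (Nat.pair i (h i)))
        exact hg.mono _ _ _ _ (by omega) this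
      · rw [hbeta n le_rfl]

end Pool.Agent.Helper52.KripkeHA
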