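import Pool.Agent.Helper52.KripkeHA.Axioms

namespace Pool.Agent.Helper52.KripkeHA

open Filter Nat.Partrec

/-- satisfaction in the standard structure -/
abbrev nsat (φ : Fm) (v : ℕ → ℕ) : Prop := φ.Sat natA v

/-- the truth value of `φ` is a partial recursive function of the arguments -/
def DecP (φ : Fm) : Prop := ∀ (F : Filter ℕ) (v : ℕ → PE F), ∃ c ∈ PE F, ∀ᶠ x in F,
  (c x = 0 ↔ nsat φ (fun i => (v i).1 x))

def Los (φ : Fm) : Prop := ∀ (a : Nd) (v : ℕ → PE a.F),
  φ.Sat (strU a) (fun i => el a (v i)) ↔ ∀ᶠ x in a.F, nsat φ (fun i => (v i).1 x)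

structure Dl (φ : Fm) : Prop where
  dec : DecP φ
  los : Los φ

theorem Tm.mem_PE (t : Tm) {F : Filter ℕ} (v : ℕ → PE F) :
    (fun x => t.val natA (fun i => (v i).1 x)) ∈ PE F := by
  induction t with
  | var n => exact (v n).2
  | zero => exact PE.const 0
  | succ t ih => exact PE.prim₁ ih Primrec.succ
  | add s t ihs iht => exact PE.prim₂ ihs iht Primrec.nat_add
  | mul s t ihs iht => exact PE.prim₂ ihs iht Primrec.nat_mul

theorem el_surj_val {a : Nd} (v : ℕ → domU a) : ∃ w : ℕ → PE a.F, v = fun i => el a (w i) := by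
  choose w hw using fun i => el_surj a (v i)
  exact ⟨w, funext fun i => (hw i).symm⟩

theorem Dl.eq (s t : Tm) : Dl (.eq s t) where
  dec := by
    intro F v
    have hh : Primrec₂ (fun a b : ℕ => if a = b then 0 else 1) :=
      Primrec.ite (Primrec.eq.comp Primrec.fst Primrec.snd) (Primrec.const 0) (Primrec.const 1)
    refine ⟨_, PE.prim₂ (s.mem_PE v) (t.mem_PE v) hh, Eventually.of_forall fun x => ?_⟩
    simp only [nsat, Fm.Sat]
    split_ifs with h <;> simp [h]
  los := by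
    intro a v
    exact Tm.val_el_eq s t v

theorem Dl.bot : Dl .bot where
  dec := by
    intro F v
    exact ⟨_, PE.const 1, Eventually.of_forall fun x => by simp [nsat, Fm.Sat]⟩
  los := by
    intro a v
    simpa [nsat, Fm.Sat] using a.rprime.ne.ne

theorem Dl.and {φ ψ : Fm} (h1 : Dl φ) (h2 : Dl ψ) : Dl (.and φ ψ) where
  dec := by
    intro F v
    obtain ⟨c, hc, hc'⟩ := h1.dec F v
    obtain ⟨d, hd, hd'⟩ := h2.dec F v
    refine ⟨_, PE.prim₂ hc hd Primrec.nat_add, ?_⟩
    filter_upwards [hc', hd'] with x h1 h2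
    simp only [nsat, Fm.Sat, Nat.add_eq_zero_iff] at *
    rw [h1, h2]
  los := by
    intro a v
    simp only [nsat, Fm.Sat, eventually_and]
    rw [h1.los a v, h2.los a v]

theorem Dl.decided {φ : Fm} (h : Dl φ) (a : Nd) (v : ℕ → PE a.F) :
    (∀ᶠ x in a.F, nsat φ (fun i => (v i).1 x)) ∨ (∀ᶠ x in a.F, ¬ nsat φ (fun i => (v i).1 x)) := by
  obtain ⟨c, hc, hc'⟩ := h.dec a.F v
  rcases a.rprime.dec c hc with h0 | h0
  · left
    filter_upwards [hc', h0] with x h1 h2
    exact h1.1 h2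
  · right
    filter_upwards [hc', h0] with x h1 h2 h3
    exact h2 (h1.2 h3)

theorem Dl.or {φ ψ : Fm} (h1 : Dl φ) (h2 : Dl ψ) : Dl (.or φ ψ) where
  dec := by
    intro F v
    obtain ⟨c, hc, hc'⟩ := h1.dec F v
    obtain ⟨d, hd, hd'⟩ := h2.dec F v
    refine ⟨_, PE.prim₂ hc hd Primrec.nat_mul, ?_⟩
    filter_upwards [hc', hd'] with x h1 h2
    simp only [nsat, Fm.Sat, Nat.mul_eq_zero] at *
    rw [h1, h2]
  los := by
    intro a v
    simp only [nsat, Fm.Sat]
    rw [h1.los a v, h2.los a v]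
    constructor
    · rintro (h | h)
      · exact h.mono fun x hx => Or.inl hx
      · exact h.mono fun x hx => Or.inr hx
    · intro h
      rcases h1.decided a v with h0 | h0
      · exact Or.inl h0
      · right
        filter_upwards [h, h0] with x hx hx0
        exact hx.resolve_left hx0

theorem Dl.imp {φ ψ : Fm} (h1 : Dl φ) (h2 : Dl ψ) : Dl (.imp φ ψ) where
  dec := by
    intro F v
    obtain ⟨c, hc, hc'⟩ := h1.dec F v
    obtain ⟨d, hd, hd'⟩ := h2.dec F v
    have hh : Primrec₂ (fun a b : ℕ => if a = 0 then b else 0) :=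
      Primrec.ite (Primrec.eq.comp Primrec.fst (Primrec.const 0)) Primrec.snd (Primrec.const 0)
    refine ⟨_, PE.prim₂ hc hd hh, ?_⟩
    filter_upwards [hc', hd'] with x h1 h2
    simp only [nsat, Fm.Sat] at *
    split_ifs with h
    · rw [h2]; simp [h1.1 h]
    · simp only [true_iff]
      intro h3; exact absurd (h1.2 h3) h
  los := by
    intro a v
    simp only [nsat, Fm.Sat]
    rw [h1.los a v, h2.los a v]
    constructor
    · intro h
      rcases h1.decided a v with h0 | h0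
      · exact (h h0).mono fun x hx _ => hx
      · exact h0.mono fun x hx h3 => absurd h3 hx
    · intro h h'
      filter_upwards [h, h'] with x hx hx'
      exact hx hx'

theorem Dl.subst {φ : Fm} (h : Dl φ) (σ : ℕ → Tm) : Dl (φ.subst σ) where
  dec := by
    intro F v
    obtain ⟨c, hc, hc'⟩ := h.dec F (fun i => ⟨_, (σ i).mem_PE v⟩)
    refine ⟨c, hc, ?_⟩
    filter_upwards [hc'] with x hx
    rw [nsat, Fm.sat_subst]
    exact hx
  los := by
    intro a v
    have h3 := h.los a (fun i => (σ i).fn v)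
    simp only [nsat, Fm.sat_subst, Tm.val_el]
    rw [h3]
    simp only [Tm.fn_apply]

/-- search -/
theorem DecP.search {φ : Fm} (h : DecP φ) {F : Filter ℕ} (v : ℕ → PE F) :
    ∃ g : ℕ →. ℕ, Nat.Partrec g ∧ ∃ c : ℕ → ℕ, ∀ᶠ x in F, ∀ z, c (Nat.pair x z) ∈ g (Nat.pair x z) ∧
      (c (Nat.pair x z) = 0 ↔ nsat φ (cons z (fun i => (v i).1 x))) := by
  have hsnd : (fun z : ℕ => z.unpair.2) ∈ PE (comap pr F) :=
        PE.prim₁ PE.id (Primrec.snd.comp Primrec.unpair)
  have hlift : ∀ f ∈ PE F, (fun x => f (pr x)) ∈ PE (comap pr F) := fun f hf =>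
    PE.tendsto (q := pr) hf primrec_pr tendsto_comap
  obtain ⟨c, ⟨g, hg, hgc⟩, hc⟩ := h (comap pr F)
    (cons (D := PE (comap pr F)) ⟨_, hsnd⟩ (fun i => ⟨_, hlift (v i).1 (v i).2⟩))
  refine ⟨g, hg, c, ?_⟩
  rw [eventually_comap] at hgc hc
  filter_upwards [hgc, hc] with x h1 h2 z
  have hp : pr (Nat.pair x z) = x := by simp [pr]
  refine ⟨h1 _ hp, ?_⟩
  rw [h2 _ hp]
  have e : (fun i => ((cons (D := PE (comap pr F)) ⟨_, hsnd⟩
      (fun i => ⟨_, hlift (v i).1 (v i).2⟩)) i).1 (Nat.pair x z)) =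
      cons z (fun i => (v i).1 x) := by
    funext i
    cases i with
    | zero => simp [cons]
    | succ n => simp [cons, pr]
  rw [e]

theorem Los.ex {φ : Fm} (h : Dl φ) : Los (.ex φ) := by
  intro a v
  constructor
  · rintro ⟨y, hy⟩
    obtain ⟨g, rfl⟩ := el_surj a y
    rw [← el_cons] at hy
    have h2 := (h.los a _).1 hy
    filter_upwards [h2] with x hx
    rw [val_cons] at hx
    exact ⟨_, hx⟩
  · intro hex
    obtain ⟨g, hg, c, hc⟩ := h.dec.search v
    have hr := Nat.Partrec.rfind hg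
    set r : ℕ →. ℕ := fun a => Nat.rfind fun n => (fun m => decide (m = 0)) <$> g (Nat.pair a n)
      with hrdef
    have hr' : ∀ᶠ x in a.F, ∃ z ∈ r x, nsat φ (cons z (fun i => (v i).1 x)) := by
      filter_upwards [hex, hc] with x h1 h2
      have hdom : (r x).Dom := by
        obtain ⟨z, hz⟩ := h1
        refine Nat.rfind_dom.2 ⟨z, ?_, fun {m} _ => ?_⟩
        · simp only [Part.map_eq_map, Part.mem_map_iff, decide_eq_true_eq]
          exact ⟨_, (h2 z).1, (h2 z).2.2 hz⟩
        · simp only [Part.map_eq_map, Part.map_Dom]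
          exact Part.dom_iff_mem.2 ⟨_, (h2 m).1⟩
      refine ⟨(r x).get hdom, Part.get_mem hdom, ?_⟩
      have hspec := Nat.rfind_spec (Part.get_mem hdom)
      simp only [Part.map_eq_map, Part.mem_map_iff, decide_eq_true_eq] at hspec
      obtain ⟨m, hm, hm0⟩ := hspec
      rw [← (h2 _).2, ← hm0]
      exact Part.mem_unique (h2 _).1 hm
    classical
    let k : ℕ → ℕ := fun x => if hx : ∃ z ∈ r x, nsat φ (cons z (fun i => (v i).1 x))
      then hx.choose else 0
    have hk : ∀ᶠ x in a.F, k x ∈ r x ∧ nsat φ (cons (k x) (fun i => (v i).1 x)) := by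
      filter_upwards [hr'] with x hx
      simp only [k, dif_pos hx]
      exact hx.choose_spec
    have hkPE : k ∈ PE a.F := ⟨r, hr, hk.mono fun x hx => hx.1⟩
    refine ⟨el a ⟨k, hkPE⟩, ?_⟩
    rw [← el_cons]
    refine (h.los a _).2 ?_
    filter_upwards [hk] with x hx
    rw [val_cons]
    exact hx.2

/-- `s < t` -/
def ltFm (s t : Tm) : Fm :=
  .ex (.eq (.add (s.subst (fun i => .var (i + 1))) (.succ (.var 0))) (t.subst (fun i => .var (i + 1))))

theorem sat_ltFm {D : Type} (A : Arith D) (s t : Tm) (v : ℕ → D) : (ltFm s t).Sat A v ↔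
    ∃ d, A.add (s.val A v) (A.succ d) = t.val A v := by
  simp only [ltFm, Fm.Sat, Tm.val, Tm.val_subst]
  rfl

theorem nsat_ltFm (s t : Tm) (v : ℕ → ℕ) : nsat (ltFm s t) v ↔ s.val natA v < t.val natA v := by
  rw [nsat, sat_ltFm]
  simp only [natA]
  constructor
  · rintro ⟨d, hd⟩; omega
  · intro h; exact ⟨t.val natA v - s.val natA v - 1, by simp only [natA] at *; omega⟩

theorem Dl.lt (s t : Tm) : Dl (ltFm s t) where
  dec := by
    intro F v
    have hh : Primrec₂ (fun a b : ℕ => if a < b then 0 else 1) :=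
      Primrec.ite (Primrec.nat_lt.comp Primrec.fst Primrec.snd) (Primrec.const 0) (Primrec.const 1)
    refine ⟨_, PE.prim₂ (s.mem_PE v) (t.mem_PE v) hh, Eventually.of_forall fun x => ?_⟩
    rw [nsat_ltFm]
    split_ifs with h <;> simp [h]
  los := Los.ex (Dl.eq _ _)

/-- bounded existential quantifier -/
def bexFm (t : Tm) (φ : Fm) : Fm :=
  .ex (.and (ltFm (.var 0) (t.subst (fun i => .var (i + 1)))) φ)

theorem nsat_bexFm (t : Tm) (φ : Fm) (v : ℕ → ℕ) :
    nsat (bexFm t φ) v ↔ ∃ z, z < t.val natA v ∧ nsat φ (cons z v) := by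
  simp only [bexFm, nsat, Fm.Sat]
  apply exists_congr
  intro z
  have := nsat_ltFm (.var 0) (t.subst (fun i => .var (i + 1))) (cons z v)
  rw [nsat] at this
  rw [this, Tm.val_subst]
  rfl

/-- product over an initial segment -/
def prodP (g : ℕ →. ℕ) (x n : ℕ) : Part ℕ :=
  n.rec (Part.some 1) fun y IH => IH.bind fun i => (g (Nat.pair x y)).map fun c => i * c

theorem prodP_partrec {g : ℕ →. ℕ} (hg : Nat.Partrec g) : Partrec₂ (prodP g) := by
  have h := Partrec.nat_rec (f := fun a : ℕ × ℕ => a.2)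
    (g := fun a : ℕ × ℕ => Part.some 1)
    (h := fun (a : ℕ × ℕ) (b : ℕ × ℕ) => (g (Nat.pair a.1 b.1)).map fun c => b.2 * c)
    Computable.snd
    (Computable.const 1).partrec
    (by
      refine Partrec.map ?_ ?_
      · refine (Partrec.nat_iff.2 hg).comp ?_
        exact Primrec₂.natPair.to_comp.comp (Computable.fst.comp Computable.fst)
          (Computable.fst.comp Computable.snd)
      · exact Primrec.nat_mul.to_comp.comp (Computable.snd.comp (Computable.snd.comp Computable.fst))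
          Computable.snd)
  exact h

theorem prodP_mem {g : ℕ →. ℕ} {c : ℕ → ℕ} {x : ℕ} (h : ∀ z, c (Nat.pair x z) ∈ g (Nat.pair x z))
    (n : ℕ) : (∏ z ∈ Finset.range n, c (Nat.pair x z)) ∈ prodP g x n := by
  induction n with
  | zero => simp [prodP]
  | succ n ih =>
    rw [Finset.prod_range_succ]
    change _ ∈ (prodP g x n).bind fun i => (g (Nat.pair x n)).map fun c => i * c
    refine Part.mem_bind ih ?_
    exact Part.mem_map _ (h n)

theorem Dl.bex {φ : Fm} (h : Dl φ) (t : Tm) : Dl (bexFm t φ) where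
  dec := by
    intro F v
    obtain ⟨g, hg, c, hc⟩ := h.dec.search v
    refine ⟨fun x => ∏ z ∈ Finset.range (t.val natA (fun i => (v i).1 x)), c (Nat.pair x z), ?_, ?_⟩
    · refine PE.comp (PE.pair PE.id (t.mem_PE v)) (Partrec₂.unpaired'.2 (prodP_partrec hg)) ?_
      filter_upwards [hc] with x hx
      simp only [Nat.unpaired, Nat.unpair_pair]
      exact prodP_mem (fun z => (hx z).1) _
    · filter_upwards [hc] with x hx
      rw [nsat_bexFm, Finset.prod_eq_zero_iff]
      simp only [Finset.mem_range]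
      exact exists_congr fun z => and_congr_right fun _ => (hx z).2
  los := Los.ex (Dl.and (Dl.lt _ _) h)

/-- relations defined by a good formula -/
def DR (R : (ℕ → ℕ) → Prop) : Prop := ∃ φ, Dl φ ∧ ∀ v, nsat φ v ↔ R v

theorem DR.eq (s t : Tm) : DR (fun v => s.val natA v = t.val natA v) :=
  ⟨_, Dl.eq s t, fun _ => Iff.rfl⟩

theorem DR.lt (s t : Tm) : DR (fun v => s.val natA v < t.val natA v) :=
  ⟨_, Dl.lt s t, fun _ => nsat_ltFm _ _ _⟩

theorem DR.and {R S : (ℕ → ℕ) → Prop} (h1 : DR R) (h2 : DR S) : DR (fun v => R v ∧ S v) := by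
  obtain ⟨φ, hφ, h1⟩ := h1
  obtain ⟨ψ, hψ, h2⟩ := h2
  exact ⟨_, hφ.and hψ, fun v => and_congr (h1 v) (h2 v)⟩

theorem DR.or {R S : (ℕ → ℕ) → Prop} (h1 : DR R) (h2 : DR S) : DR (fun v => R v ∨ S v) := by
  obtain ⟨φ, hφ, h1⟩ := h1
  obtain ⟨ψ, hψ, h2⟩ := h2
  exact ⟨_, hφ.or hψ, fun v => or_congr (h1 v) (h2 v)⟩

theorem DR.not {R : (ℕ → ℕ) → Prop} (h1 : DR R) : DR (fun v => ¬ R v) := by
  obtain ⟨φ, hφ, h1⟩ := h1
  exact ⟨_, hφ.imp Dl.bot, fun v => not_congr (h1 v)⟩

theorem DR.bex (t : Tm) {R : (ℕ → ℕ) → ℕ → Prop} (h : DR (fun w => R (fun i => w (i + 1)) (w 0))) :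
    DR (fun v => ∃ z, z < t.val natA v ∧ R v z) := by
  obtain ⟨φ, hφ, h⟩ := h
  refine ⟨_, hφ.bex t, fun v => ?_⟩
  rw [nsat_bexFm]
  exact exists_congr fun z => and_congr_right fun _ => h _

theorem DR.ball (t : Tm) {R : (ℕ → ℕ) → ℕ → Prop} (h : DR (fun w => R (fun i => w (i + 1)) (w 0))) :
    DR (fun v => ∀ z, z < t.val natA v → R v z) := by
  have h1 := DR.not (DR.bex t (R := fun v z => ¬ R v z) h.not)
  obtain ⟨φ, hφ, h⟩ := h1
  refine ⟨φ, hφ, fun v => ?_⟩
  rw [h v]
  constructor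
  · intro h2 z hz
    by_contra h3
    exact h2 ⟨z, hz, h3⟩
  · rintro h2 ⟨z, hz, h3⟩
    exact h3 (h2 z hz)

theorem DR.subst {R : (ℕ → ℕ) → Prop} (h : DR R) (σ : ℕ → Tm) :
    DR (fun v => R (fun i => (σ i).val natA v)) := by
  obtain ⟨φ, hφ, h⟩ := h
  refine ⟨_, hφ.subst σ, fun v => ?_⟩
  rw [nsat, Fm.sat_subst]
  exact h _

theorem DR.congr {R S : (ℕ → ℕ) → Prop} (h : DR R) (hRS : ∀ v, S v ↔ R v) : DR S := by
  obtain ⟨φ, hφ, h⟩ := h
  exact ⟨φ, hφ, fun v => (h v).trans (hRS v).symm⟩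

theorem DR.subst₃ {T : ℕ → ℕ → ℕ → Prop} (h : DR (fun v => T (v 0) (v 1) (v 2))) (s t u : Tm) :
    DR (fun v => T (s.val natA v) (t.val natA v) (u.val natA v)) :=
  h.subst (cons s (cons t (fun _ => u)))

theorem DR.pair (s t u : Tm) :
    DR (fun v => s.val natA v = Nat.pair (t.val natA v) (u.val natA v)) := by
  have h1 : DR (fun v => (t.val natA v < u.val natA v ∧
      s.val natA v = u.val natA v * u.val natA v + t.val natA v) ∨
      (¬ t.val natA v < u.val natA v ∧
      s.val natA v = t.val natA v * t.val natA v + t.val natA v + u.val natA v)) :=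
    ((DR.lt t u).and (DR.eq s (.add (.mul u u) t))).or
      ((DR.lt t u).not.and (DR.eq s (.add (.add (.mul t t) t) u)))
  refine h1.congr fun v => ?_
  unfold Nat.pair
  split_ifs with h <;> simp [h]

end Pool.Agent.Helper52.KripkeHA
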