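import Pool.Agent.Helper52.KripkeHA.Model

namespace Pool.Agent.Helper52.KripkeHA

open Filter Nat.Partrec

/-- Kleene application -/
def app (e a : ℕ) : Part ℕ := (Denumerable.ofNat Code e).eval a

/-- Kleene realizability -/
def rlz : Fm → ℕ → (ℕ → ℕ) → Prop
  | .bot, _, _ => False
  | .eq s t, _, v => s.val natA v = t.val natA v
  | .and φ ψ, e, v => rlz φ e.unpair.1 v ∧ rlz ψ e.unpair.2 v
  | .or φ ψ, e, v =>
      (e.unpair.1 = 0 ∧ rlz φ e.unpair.2 v) ∨ (e.unpair.1 ≠ 0 ∧ rlz ψ e.unpair.2 v)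
  | .imp φ ψ, e, v => ∀ a, rlz φ a v → ∃ b ∈ app e a, rlz ψ b v
  | .all φ, e, v => ∀ n, ∃ b ∈ app e n, rlz φ b (cons n v)
  | .ex φ, e, v => rlz φ e.unpair.2 (cons e.unpair.1 v)

theorem app_partrec : Nat.Partrec (fun z => app z.unpair.1 z.unpair.2) := by
  have := Code.eval_part.comp (Computable.ofNat Code) (Computable.id)
  have h2 : Partrec (fun z : ℕ => app z.unpair.1 z.unpair.2) := by
    unfold app
    exact Code.eval_part.comp
      ((Computable.ofNat Code).comp (Computable.fst.comp Computable.unpair))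
      (Computable.snd.comp Computable.unpair)
  exact Partrec.nat_iff.1 h2

theorem PE.app {F : Filter ℕ} {f g b : ℕ → ℕ} (hf : f ∈ PE F) (hg : g ∈ PE F)
    (hb : ∀ᶠ x in F, b x ∈ app (f x) (g x)) : b ∈ PE F := by
  refine PE.comp (PE.pair hf hg) app_partrec ?_
  filter_upwards [hb] with x hx
  simpa using hx

/-- the next node -/
def Nd.snoc (a : Nd) (G : Filter ℕ) (hG : RPrime G) (ht : Tendsto pr G a.F) : Nd where
  n := a.n + 1
  s i := if i = a.n + 1 then G else a.s i
  above i hi := by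
    rw [if_neg (by omega)]
    exact a.above i (by omega)
  prime i hi := by
    by_cases h : i = a.n + 1
    · rw [if_pos h]; exact hG
    · rw [if_neg h]; exact a.prime i (by omega)
  tend i hi := by
    by_cases h : i = a.n
    · rw [if_pos (by omega), if_neg (by omega), h]; exact ht
    · rw [if_neg (by omega), if_neg (by omega)]; exact a.tend i (by omega)
  root := by
    rw [if_neg (by omega)]; exact a.root

theorem Nd.le_snoc (a : Nd) (G : Filter ℕ) (hG : RPrime G) (ht : Tendsto pr G a.F) :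
    a ≤ a.snoc G hG ht := by
  refine ⟨by simp [Nd.snoc], fun i hi => ?_⟩
  simp only [Nd.snoc]
  rw [if_neg (by omega)]

theorem Nd.snoc_F (a : Nd) (G : Filter ℕ) (hG : RPrime G) (ht : Tendsto pr G a.F) :
    (a.snoc G hG ht).F = G := by
  simp [Nd.F, Nd.snoc]

theorem Nd.lift_snoc (a : Nd) (G : Filter ℕ) (hG : RPrime G) (ht : Tendsto pr G a.F)
    (f : ℕ → ℕ) (z : ℕ) : Nd.lift a (a.snoc G hG ht) f z = f (pr z) := by
  simp [Nd.lift, Nd.snoc]

theorem el_cons {a : Nd} (w : PE a.F) (v : ℕ → PE a.F) :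
    (fun i => el a (cons (D := PE a.F) w v i)) = cons (el a w) (fun i => el a (v i)) := by
  funext i; cases i <;> rfl

theorem val_cons {a : Nd} (w : PE a.F) (v : ℕ → PE a.F) (x : ℕ) :
    (fun i => (cons (D := PE a.F) w v i).1 x) = cons (w.1 x) (fun i => (v i).1 x) := by
  funext i; cases i <;> rfl

theorem liftE_apply {a b : Nd} (h : a ≤ b) (f : PE a.F) (x : ℕ) :
    (liftE h f).1 x = f.1 (pr^[b.n - a.n] x) := rfl

theorem up_el {a b : Nd} (h : a ≤ b) (v : ℕ → PE a.F) :
    theModel.up (k := a) (k' := b) h (fun i => el a (v i)) = fun i => el b (liftE h (v i)) :=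
  funext fun i => incl_el h (v i)

/-- realized at a node -/
def Rz (φ : Fm) (a : Nd) (v : ℕ → PE a.F) : Prop :=
  ∃ f ∈ PE a.F, ∀ᶠ x in a.F, rlz φ (f x) (fun i => (v i).1 x)

theorem Rz.mono {φ : Fm} {a b : Nd} (h : a ≤ b) {v : ℕ → PE a.F} (hr : Rz φ a v) :
    Rz φ b (fun i => liftE h (v i)) := by
  obtain ⟨f, hf, hr⟩ := hr
  exact ⟨Nd.lift a b f, Nd.lift_mem h hf, (Nd.tendsto_of_le h).eventually hr⟩

/-- the key extension property -/
theorem exists_node (a : Nd) (P : ℕ → ℕ → Prop) (Q : ℕ → ℕ → ℕ → Prop)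
    (h : ¬ ∃ f ∈ PE a.F, ∀ᶠ x in a.F, ∀ e, P x e → ∃ b ∈ app (f x) e, Q x e b) :
    ∃ (b : Nd) (_ : a ≤ b), (∀ f x, Nd.lift a b f x = f (pr x)) ∧
      (∀ᶠ z in b.F, P (pr z) z.unpair.2) ∧
      ¬ ∃ f ∈ PE b.F, ∀ᶠ z in b.F, Q (pr z) z.unpair.2 (f z) := by
  set S : ℕ → ℕ → Prop := fun z b => Q (pr z) z.unpair.2 b with hS
  have hbad : ¬ Bad S (comap pr a.F ⊓ 𝓟 {z | P (pr z) z.unpair.2}) := by
    rintro ⟨g, hg, hev⟩
    rw [eventually_inf_principal, eventually_comap] at hev
    obtain ⟨c, hc⟩ := Code.exists_code.1 hg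
    apply h
    refine ⟨fun x => Encodable.encode (c.curry x), ?_, ?_⟩
    · exact PE.prim₁ (h := fun x => Encodable.encode (c.curry x)) PE.id
        (Primrec.encode.comp (Code.primrec₂_curry.comp (Primrec.const c) Primrec.id))
    · filter_upwards [hev] with x hx e he
      obtain ⟨b, hb, hSb⟩ := hx (Nat.pair x e) (by simp [pr]) (by simpa [pr] using he)
      refine ⟨b, ?_, ?_⟩
      · simp only [app, Denumerable.ofNat_encode, Code.eval_curry, hc]
        exact hb
      · simpa [hS, pr] using hSb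
  obtain ⟨G, hGle, hG, hGb⟩ := exists_extension hbad
  have ht : Tendsto pr G a.F := by
    rw [tendsto_iff_comap]
    exact hGle.trans inf_le_left
  refine ⟨a.snoc G hG ht, a.le_snoc G hG ht, fun f x => Nd.lift_snoc a G hG ht f x, ?_, ?_⟩
  · rw [Nd.snoc_F]
    exact hGle (mem_inf_of_right (mem_principal_self _))
  · rw [Nd.snoc_F]
    rintro ⟨f, ⟨g, hg, hfg⟩, hf⟩
    apply hGb
    refine ⟨g, hg, ?_⟩
    filter_upwards [hfg, hf] with z h1 h2
    exact ⟨f z, h1, h2⟩

theorem PE.choose {F : Filter ℕ} {f g : ℕ → ℕ} {R : ℕ → ℕ → Prop} (hf : f ∈ PE F)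
    (hg : g ∈ PE F) (h : ∀ᶠ x in F, ∃ c ∈ Pool.Agent.Helper52.KripkeHA.app (f x) (g x), R x c) :
    ∃ k ∈ PE F, ∀ᶠ x in F, R x (k x) := by
  classical
  let k : ℕ → ℕ := fun x =>
    if hx : ∃ c ∈ Pool.Agent.Helper52.KripkeHA.app (f x) (g x), R x c then hx.choose else 0
  have hk : ∀ᶠ x in F, k x ∈ Pool.Agent.Helper52.KripkeHA.app (f x) (g x) ∧ R x (k x) := by
    filter_upwards [h] with x hx
    simp only [k, dif_pos hx]
    exact hx.choose_spec
  exact ⟨k, PE.app hf hg (hk.mono fun x hx => hx.1), hk.mono fun x hx => hx.2⟩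

theorem truth (φ : Fm) : ∀ (a : Nd) (v : ℕ → PE a.F),
    theModel.Forces φ a (fun i => el a (v i)) ↔ Rz φ a v := by
  induction φ with
  | bot =>
    intro a v
    constructor
    · intro h; exact h.elim
    · rintro ⟨f, hf, h⟩
      obtain ⟨x, hx⟩ := h.exists
      exact hx
  | eq s t =>
    intro a v
    have h1 : theModel.Forces (.eq s t) a (fun i => el a (v i)) ↔
      ∀ᶠ x in a.F, s.val natA (fun i => (v i).1 x) = t.val natA (fun i => (v i).1 x) :=
      Tm.val_el_eq s t v
    rw [h1]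
    constructor
    · intro h
      exact ⟨fun _ => 0, PE.const 0, h⟩
    · rintro ⟨f, hf, h⟩
      exact h
  | and φ ψ ihφ ihψ =>
    intro a v
    have h1 : theModel.Forces (.and φ ψ) a (fun i => el a (v i)) ↔ Rz φ a v ∧ Rz ψ a v := by
      rw [← ihφ a v, ← ihψ a v]; rfl
    rw [h1]
    constructor
    · rintro ⟨⟨f, hf, h⟩, ⟨g, hg, h'⟩⟩
      refine ⟨_, PE.pair hf hg, ?_⟩
      filter_upwards [h, h'] with x hx hx'
      simp only [rlz, Nat.unpair_pair]
      exact ⟨hx, hx'⟩
    · rintro ⟨f, hf, h⟩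
      refine ⟨⟨fun x => (f x).unpair.1, PE.prim₁ hf (Primrec.fst.comp Primrec.unpair), ?_⟩,
        ⟨fun x => (f x).unpair.2, PE.prim₁ hf (Primrec.snd.comp Primrec.unpair), ?_⟩⟩
      · filter_upwards [h] with x hx using hx.1
      · filter_upwards [h] with x hx using hx.2
  | or φ ψ ihφ ihψ =>
    intro a v
    have h1 : theModel.Forces (.or φ ψ) a (fun i => el a (v i)) ↔ Rz φ a v ∨ Rz ψ a v := by
      rw [← ihφ a v, ← ihψ a v]; rfl
    rw [h1]
    constructor
    · rintro (⟨f, hf, h⟩ | ⟨f, hf, h⟩)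
      · refine ⟨_, PE.pair (PE.const 0) hf, ?_⟩
        filter_upwards [h] with x hx
        simp only [rlz, Nat.unpair_pair]
        exact Or.inl ⟨trivial, hx⟩
      · refine ⟨_, PE.pair (PE.const 1) hf, ?_⟩
        filter_upwards [h] with x hx
        simp only [rlz, Nat.unpair_pair]
        exact Or.inr ⟨one_ne_zero, hx⟩
    · rintro ⟨f, hf, h⟩
      have hf1 : (fun x => (f x).unpair.1) ∈ PE a.F :=
        PE.prim₁ hf (Primrec.fst.comp Primrec.unpair)
      have hf2 : (fun x => (f x).unpair.2) ∈ PE a.F :=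
        PE.prim₁ hf (Primrec.snd.comp Primrec.unpair)
      rcases a.rprime.dec _ hf1 with h0 | h0
      · left
        refine ⟨_, hf2, ?_⟩
        filter_upwards [h, h0] with x hx hx0
        rcases hx with hx | hx
        · exact hx.2
        · exact absurd hx0 hx.1
      · right
        refine ⟨_, hf2, ?_⟩
        filter_upwards [h, h0] with x hx hx0
        rcases hx with hx | hx
        · exact absurd hx.1 hx0
        · exact hx.2
  | imp φ ψ ihφ ihψ =>
    intro a v
    constructor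
    · intro hforce
      by_contra hno
      have hno' : ¬ ∃ f ∈ PE a.F, ∀ᶠ x in a.F, ∀ e, rlz φ e (fun i => (v i).1 x) →
          ∃ b ∈ app (f x) e, rlz ψ b (fun i => (v i).1 x) := hno
      obtain ⟨b, hle, hlift, hP, hQ⟩ := exists_node a (fun x e => rlz φ e (fun i => (v i).1 x))
        (fun x _ b => rlz ψ b (fun i => (v i).1 x)) hno'
      have e : ∀ z, (fun i => (liftE hle (v i)).1 z) = fun i => (v i).1 (pr z) :=
          fun z => funext fun i => hlift (v i).1 z
      have h1 := hforce b hle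
      rw [up_el hle] at h1
      have h2 : Rz φ b (fun i => liftE hle (v i)) := by
        refine ⟨fun z => z.unpair.2, PE.prim₁ PE.id (Primrec.snd.comp Primrec.unpair), ?_⟩
        filter_upwards [hP] with z hz
        rw [e]; exact hz
      obtain ⟨f, hf, hr⟩ := (ihψ b _).1 (h1 ((ihφ b _).2 h2))
      apply hQ
      refine ⟨f, hf, ?_⟩
      filter_upwards [hr] with z hz
      rw [e] at hz; exact hz
    · rintro ⟨f, hf, hr⟩
      intro (b : Nd) (hab : a ≤ b) hφ
      rw [up_el hab] at hφ ⊢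
      obtain ⟨g, hg, hrg⟩ := (ihφ b _).1 hφ
      refine (ihψ b _).2 ?_
      have hr' := (Nd.tendsto_of_le hab).eventually hr
      refine PE.choose (R := fun x c => rlz ψ c (fun i => (liftE hab (v i)).1 x))
        (Nd.lift_mem hab hf) hg ?_
      filter_upwards [hr', hrg] with x hx hxg
      exact hx (g x) hxg
  | all φ ih =>
    intro a v
    constructor
    · intro hforce
      by_contra hno
      have hno' : ¬ ∃ f ∈ PE a.F, ∀ᶠ x in a.F, ∀ e, True →
          ∃ b ∈ app (f x) e, rlz φ b (cons e (fun i => (v i).1 x)) := by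
        rintro ⟨f, hf, hr⟩
        apply hno
        refine ⟨f, hf, ?_⟩
        filter_upwards [hr] with x hx n
        exact hx n trivial
      obtain ⟨b, hle, hlift, -, hQ⟩ := exists_node a (fun x e => True)
        (fun x e b => rlz φ b (cons e (fun i => (v i).1 x))) hno'
      have e : ∀ z, (fun i => (liftE hle (v i)).1 z) = fun i => (v i).1 (pr z) :=
          fun z => funext fun i => hlift (v i).1 z
      have hsnd : (fun z : ℕ => z.unpair.2) ∈ PE b.F :=
        PE.prim₁ PE.id (Primrec.snd.comp Primrec.unpair)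
      have h1 := hforce b hle (el b ⟨_, hsnd⟩)
      rw [up_el hle] at h1
      have h1' : theModel.Forces φ b (fun i => el b (cons (D := PE b.F) ⟨_, hsnd⟩
          (fun i => liftE hle (v i)) i)) := by
        rw [el_cons]; exact h1
      obtain ⟨f, hf, hr⟩ := (ih b _).1 h1'
      apply hQ
      refine ⟨f, hf, ?_⟩
      filter_upwards [hr] with z hz
      rw [val_cons, e] at hz; exact hz
    · rintro ⟨f, hf, hr⟩
      intro (b : Nd) (hab : a ≤ b) y
      obtain ⟨g, rfl⟩ := el_surj b y
      rw [up_el hab]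
      have hgoal : Rz φ b (cons (D := PE b.F) g (fun i => liftE hab (v i))) := by
        have hr' := (Nd.tendsto_of_le hab).eventually hr
        refine PE.choose (R := fun x c => rlz φ c
          (fun i => (cons (D := PE (Nd.F b)) g (fun i => liftE hab (v i)) i).1 x))
          (Nd.lift_mem hab hf) g.2 ?_
        filter_upwards [hr'] with x hx
        rw [val_cons]
        exact hx (g.1 x)
      have h2 := (ih b _).2 hgoal
      have h3 := el_cons (a := b) g (fun i => liftE hab (v i))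
      exact h3 ▸ h2
  | ex φ ih =>
    intro a v
    constructor
    · rintro ⟨y, hy⟩
      obtain ⟨g, rfl⟩ := el_surj a y
      have hy' : theModel.Forces φ a (fun i => el a (cons (D := PE a.F) g v i)) := by
        rw [el_cons]; exact hy
      obtain ⟨f, hf, hr⟩ := (ih a _).1 hy'
      refine ⟨_, PE.pair g.2 hf, ?_⟩
      filter_upwards [hr] with x hx
      rw [val_cons] at hx
      simp only [rlz, Nat.unpair_pair]
      exact hx
    · rintro ⟨f, hf, hr⟩
      have hf1 : (fun x => (f x).unpair.1) ∈ PE a.F :=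
        PE.prim₁ hf (Primrec.fst.comp Primrec.unpair)
      have hf2 : (fun x => (f x).unpair.2) ∈ PE a.F :=
        PE.prim₁ hf (Primrec.snd.comp Primrec.unpair)
      refine ⟨el a ⟨_, hf1⟩, ?_⟩
      have hgoal : Rz φ a (cons (D := PE a.F) ⟨_, hf1⟩ v) := by
        refine ⟨_, hf2, ?_⟩
        filter_upwards [hr] with x hx
        rw [val_cons]
        exact hx
      have h2 := (ih a _).2 hgoal
      rw [el_cons] at h2
      exact h2

end Pool.Agent.Helper52.KripkeHA
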